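import Mathlib

/-!
# The relative algebraic closure of a fixed field
-/

set_option autoImplicit false

universe u

open Polynomial

namespace Pool.Agent.H87.MS

section

variable {F L G : Type u} [Field F] [Field L] [Algebra F L] [Group G] (φ : G →* (L ≃ₐ[F] L))

theorem minpoly_good (hφ : ∀ x : L, (∀ g, φ g x = x) → x ∈ Set.range (algebraMap F L))
    (x : L) (hx : IsAlgebraic F x) :
    (minpoly F x).Separable ∧ ((minpoly F x).map (algebraMap F L)).Splits := by
  classical
  have hne : minpoly F x ≠ 0 := minpoly.ne_zero hx.isIntegral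
  set T : Finset L := ((minpoly F x).rootSet L).toFinset.filter (fun y => ∃ g, φ g x = y) with hTdef
  set q : L[X] := ∏ y ∈ T, (X - C y) with hqdef
  have hmem : ∀ y, y ∈ T ↔ ∃ g, φ g x = y := by
    intro y
    rw [hTdef, Finset.mem_filter, Set.mem_toFinset, mem_rootSet]
    constructor
    · exact fun h => h.2
    · rintro ⟨g, rfl⟩
      refine ⟨⟨hne, ?_⟩, g, rfl⟩
      rw [← AlgEquiv.coe_toAlgHom, Polynomial.aeval_algHom_apply, minpoly.aeval, map_zero]
  have hT : ∀ g, T.image (φ g) = T := by
    intro g
    refine Finset.eq_of_subset_of_card_le ?_ ?_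
    · intro y hy
      rw [Finset.mem_image] at hy
      obtain ⟨z, hz, rfl⟩ := hy
      obtain ⟨h, rfl⟩ := (hmem z).1 hz
      exact (hmem _).2 ⟨g * h, by rw [map_mul]; rfl⟩
    · rw [Finset.card_image_of_injective _ (φ g).injective]
  have hq : ∀ g, q.map (φ g : L →+* L) = q := by
    intro g
    rw [hqdef, Polynomial.map_prod]
    conv_rhs => rw [← hT g]
    rw [Finset.prod_image (fun a _ b _ h => (φ g).injective h)]
    refine Finset.prod_congr rfl fun y _ => ?_
    simp
  have hc : ∀ n, q.coeff n ∈ Set.range (algebraMap F L) := by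
    intro n
    refine hφ _ fun g => ?_
    have := congrArg (fun p => p.coeff n) (hq g)
    simpa using this
  obtain ⟨q0, hq0⟩ := (Polynomial.mem_lifts q).1 ((Polynomial.lifts_iff_coeff_lifts q).2 hc)
  have h1 : aeval x q0 = 0 := by
    rw [aeval_def, ← eval_map, hq0, hqdef, eval_prod]
    exact Finset.prod_eq_zero ((hmem x).2 ⟨1, by rw [map_one]; rfl⟩) (by simp)
  have h3 : (minpoly F x).map (algebraMap F L) ∣ q := by
    rw [← hq0]
    exact Polynomial.map_dvd _ (minpoly.dvd F x h1)
  have hq1 : q.Separable := by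
    rw [hqdef]
    exact Polynomial.separable_prod_X_sub_C_iff'.2 fun a _ b _ h => h
  have hq2 : q.Splits := Polynomial.Splits.prod fun y _ => Polynomial.Splits.X_sub_C y
  exact ⟨(Polynomial.separable_map (algebraMap F L)).1 (hq1.of_dvd h3), hq2.of_dvd hq1.ne_zero h3⟩

theorem isGalois_algebraicClosure
    (hφ : ∀ x : L, (∀ g, φ g x = x) → x ∈ Set.range (algebraMap F L)) :
    IsGalois F (algebraicClosure F L) := by
  have hm : ∀ x : algebraicClosure F L, minpoly F x = minpoly F (x : L) := fun x =>
    (minpoly.algebraMap_eq (algebraMap (algebraicClosure F L) L).injective x).symm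
  have ha : ∀ x : algebraicClosure F L, IsAlgebraic F (x : L) := fun x =>
    mem_algebraicClosure_iff.1 x.2
  rw [isGalois_iff]
  constructor
  · refine ⟨fun x => ?_⟩
    unfold IsSeparable
    rw [hm]
    exact (minpoly_good φ hφ x (ha x)).1
  · rw [normal_iff]
    intro x
    refine ⟨Algebra.IsIntegral.isIntegral x, ?_⟩
    rw [hm]
    exact _root_.Splits.algebraicClosure _ (minpoly_good φ hφ x (ha x)).2

/-- The restriction of the automorphisms to the relative algebraic closure. -/
noncomputable def restr [Normal F (algebraicClosure F L)] : G →* Gal(algebraicClosure F L/F) :=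
  (AlgEquiv.restrictNormalHom (algebraicClosure F L)).comp φ

theorem restr_apply [Normal F (algebraicClosure F L)] (g : G) (x : algebraicClosure F L) :
    ((restr φ g x : algebraicClosure F L) : L) = φ g x :=
  AlgEquiv.restrictNormal_commutes (φ g) (algebraicClosure F L) x

theorem restr_surj [IsGalois F (algebraicClosure F L)]
    (hφ : ∀ x : L, (∀ g, φ g x = x) → x ∈ Set.range (algebraMap F L))
    (E : IntermediateField F (algebraicClosure F L)) [FiniteDimensional F E] [Normal F E]
    (σ : Gal(algebraicClosure F L/F)) : ∃ g, ∀ y ∈ E, restr φ g y = σ y := by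
  set H : Subgroup Gal(E/F) := ((AlgEquiv.restrictNormalHom E).comp (restr φ)).range with hH
  have h1 : IntermediateField.fixedField H = ⊥ := by
    rw [eq_bot_iff]
    intro x hx
    rw [IntermediateField.mem_fixedField_iff] at hx
    have h2 : ((x : algebraicClosure F L) : L) ∈ Set.range (algebraMap F L) := by
      refine hφ _ fun g => ?_
      have h3 := hx ((AlgEquiv.restrictNormalHom E).comp (restr φ) g) ⟨g, rfl⟩
      have h4 := AlgEquiv.restrictNormal_commutes (restr φ g) E x
      have h5 : ((AlgEquiv.restrictNormal (restr φ g) E x : E) : algebraicClosure F L) = x :=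
        congrArg Subtype.val h3
      have h6 : restr φ g (x : algebraicClosure F L) = x := h4.symm.trans h5
      rw [← restr_apply, h6]
    obtain ⟨y, hy⟩ := h2
    rw [IntermediateField.mem_bot]
    refine ⟨y, Subtype.ext (Subtype.ext ?_)⟩
    rw [← hy]
    rfl
  have h2 : H = ⊤ := by
    rw [← IntermediateField.fixingSubgroup_fixedField H, h1, IntermediateField.fixingSubgroup_bot]
  have h3 : AlgEquiv.restrictNormalHom E σ ∈ H := by rw [h2]; trivial
  obtain ⟨g, hg⟩ := h3
  refine ⟨g, fun y hy => ?_⟩
  have h4 := AlgEquiv.restrictNormal_commutes (restr φ g) E ⟨y, hy⟩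
  have h5 := AlgEquiv.restrictNormal_commutes σ E ⟨y, hy⟩
  have h6 : AlgEquiv.restrictNormal (restr φ g) E = AlgEquiv.restrictNormal σ E := hg
  rw [h6, h5] at h4
  exact h4.symm

end

end Pool.Agent.H87.MS
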