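import Pool.Agent.H87.MS.Main

/-!
# Uniform bounds for symbol lengths: the compactness argument
-/

set_option autoImplicit false

universe u

open Filter Polynomial

namespace Pool.Agent.H87.MS

section

variable (U : Ultrafilter ℕ) (F P : ℕ → Type u) [∀ i, Field (F i)] [∀ i, Field (P i)]
  [∀ i, Algebra (F i) (P i)]

attribute [local instance] alg

/-- Elements of bounded degree define an algebraic element of the ultraproduct. -/
theorem mem_PP_of_bounded {B : ℕ} (θ : ∀ i, P i) (f : ∀ i, (F i)[X]) (hm : ∀ i, (f i).Monic)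
    (hd : ∀ i, (f i).natDegree ≤ B) (h0 : ∀ i, aeval (θ i) (f i) = 0) : mk U P θ ∈ PP U F P := by
  classical
  let f' : ∀ i, (F i)[X] := fun i => f i * X ^ (B - (f i).natDegree)
  have hm' : ∀ i, (f' i).Monic := fun i => (hm i).mul (monic_X_pow _)
  have hd' : ∀ i, (f' i).natDegree = B := fun i => by
    show (f i * X ^ (B - (f i).natDegree)).natDegree = B
    rw [(hm i).natDegree_mul (monic_X_pow _), natDegree_X_pow]
    have := hd i
    omega
  have h0' : ∀ i, aeval (θ i) (f' i) = 0 := fun i => by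
    show aeval (θ i) (f i * X ^ (B - (f i).natDegree)) = 0
    rw [map_mul, h0 i, zero_mul]
  let Q : (∀ i, F i)[X] := ∑ k ∈ Finset.range (B + 1), monomial k (fun i => (f' i).coeff k)
  have hQ : ∀ i, comp Q i = f' i := by
    intro i
    conv_rhs => rw [(f' i).as_sum_range' (B + 1) (by rw [hd' i]; omega)]
    unfold comp
    rw [Polynomial.map_sum]
    refine Finset.sum_congr rfl fun k _ => ?_
    rw [map_monomial]
    rfl
  have hQ0 : Q.map (mk U F) ≠ 0 := by
    intro h
    obtain ⟨i, hi⟩ := (comp_eventually_zero h).exists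
    rw [hQ i] at hi
    exact (hm' i).ne_zero hi
  refine mem_algebraicClosure_iff.2 ⟨Q.map (mk U F), hQ0, ?_⟩
  rw [aeval_mk, ← map_zero (mk U P), mk_eq]
  refine Filter.Eventually.of_forall fun i => ?_
  rw [hQ i]
  exact h0' i

theorem core {p : ℕ} (hp : p.Prime) (MS : MerkurjevSuslin.{u} p) {B : ℕ}
    (hζ : ∀ i, ∃ ζ : F i, IsPrimitiveRoot ζ p) (hP : ∀ i, IsMaxPro p (F i) (P i))
    (c : ∀ i, Gal(P i/F i) → Gal(P i/F i) → ZMod p) (hc : ∀ i, IsCocycle (c i))
    (E : ∀ i, IntermediateField (F i) (P i)) (hE : ∀ i, FiniteDimensional (F i) (E i))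
    (hB : ∀ i, Module.finrank (F i) (E i) ≤ B)
    (hf : ∀ i, ∀ g g' h h' : Gal(P i/F i), (∀ x ∈ E i, g x = g' x) → (∀ x ∈ E i, h x = h' x) →
      c i g h = c i g' h') : ∃ m, ∀ᶠ i in (U : Filter ℕ), SymbolLengthLE (c i) m := by
  classical
  have hpf : Fact p.Prime := ⟨hp⟩
  have hg : ∀ i, IsGalois (F i) (P i) := fun i => (hP i).galois
  have hgal := isGalois_PP U F P
  -- primitive elements
  let pb := fun i => Field.powerBasisOfFiniteOfSeparable (F i) (E i)
  let θ : ∀ i, P i := fun i => ((pb i).gen : P i)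
  have hagree : ∀ i, ∀ g g' : Gal(P i/F i), g (θ i) = g' (θ i) → ∀ x ∈ E i, g x = g' x := by
    intro i g g' h x hx
    have h1 : (g : P i →ₐ[F i] P i).comp (E i).val = (g' : P i →ₐ[F i] P i).comp (E i).val :=
      (pb i).algHom_ext h
    exact congrArg (fun f : E i →ₐ[F i] P i => f ⟨x, hx⟩) h1
  have hint : ∀ i, IsIntegral (F i) (pb i).gen := fun i => Algebra.IsIntegral.isIntegral _
  have hmem : mk U P θ ∈ PP U F P := by
    refine mem_PP_of_bounded U F P (B := B) θ (fun i => minpoly (F i) (pb i).gen)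
      (fun i => minpoly.monic (hint i)) (fun i => ?_) (fun i => ?_)
    · show (minpoly (F i) (pb i).gen).natDegree ≤ B
      rw [(pb i).natDegree_minpoly, ← (pb i).finrank]
      exact hB i
    · show aeval ((E i).val (pb i).gen) (minpoly (F i) (pb i).gen) = 0
      rw [aeval_algHom_apply, minpoly.aeval, map_zero]
  let θ' : PP U F P := ⟨mk U P θ, hmem⟩
  let E' : IntermediateField (Ult U F) (PP U F P) :=
    IntermediateField.normalClosure (Ult U F) (IntermediateField.adjoin (Ult U F) {θ'}) (PP U F P)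
  have hfd1 : FiniteDimensional (Ult U F) (IntermediateField.adjoin (Ult U F) {θ'}) :=
    IntermediateField.adjoin.finiteDimensional (Algebra.IsIntegral.isIntegral θ')
  have hfd : FiniteDimensional (Ult U F) E' := normalClosure.is_finiteDimensional _ _ _
  have hno : Normal (Ult U F) E' := normalClosure.normal _ _ _
  have hθE : θ' ∈ E' := IntermediateField.le_normalClosure _ (IntermediateField.mem_adjoin_simple_self _ θ')
  have hstab : ∀ (τ : Gal((PP U F P)/(Ult U F))) (x : PP U F P), x ∈ E' → τ x ∈ E' := by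
    intro τ x hx
    have h1 := AlgEquiv.restrictNormal_commutes τ E' ⟨x, hx⟩
    have h2 : τ x = ((AlgEquiv.restrictNormal τ E' ⟨x, hx⟩ : E') : PP U F P) := h1.symm
    rw [h2]
    exact Subtype.mem _
  choose rep hrep using fun σ => restr_surj (actHom U F P) (fixed_range U F P) E' σ
  have hrep' : ∀ σ, ∀ y ∈ E', proj U F P (rep σ) y = σ y := hrep
  choose c' hc' using fun σ τ : Gal((PP U F P)/(Ult U F)) =>
    exists_ultralimit (U := U) (fun i => c i (rep σ i) (rep τ i))
  have hth : ∀ (g : ∀ i, Gal(P i/F i)) (σ : Gal((PP U F P)/(Ult U F))), proj U F P g θ' = σ θ' →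
      ∀ᶠ i in (U : Filter ℕ), ∀ x ∈ E i, (rep σ i) x = g i x := by
    intro g σ h
    have h1 : proj U F P (rep σ) θ' = proj U F P g θ' := (hrep' σ θ' hθE).trans h.symm
    have h2 : ((proj U F P (rep σ) θ' : PP U F P) : Ult U P) = ((proj U F P g θ' : PP U F P) : Ult U P) := by
      rw [h1]
    rw [proj_mk U F P _ θ' θ rfl, proj_mk U F P _ θ' θ rfl, mk_eq] at h2
    filter_upwards [h2] with i hi
    exact hagree i _ _ hi
  have hkey : ∀ (g h : ∀ i, Gal(P i/F i)) (σ τ : Gal((PP U F P)/(Ult U F))),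
      proj U F P g θ' = σ θ' → proj U F P h θ' = τ θ' →
      ∀ᶠ i in (U : Filter ℕ), c i (g i) (h i) = c' σ τ := by
    intro g h σ τ h1 h2
    filter_upwards [hth g σ h1, hth h τ h2, hc' σ τ] with i hi1 hi2 hi3
    rw [← hi3]
    exact (hf i _ _ _ _ hi1 hi2).symm
  have hcongr : ∀ σ τ σ' τ' : Gal((PP U F P)/(Ult U F)), σ θ' = σ' θ' → τ θ' = τ' θ' →
      c' σ τ = c' σ' τ' := by
    intro σ τ σ' τ' h1 h2
    have h3 := hkey (rep σ) (rep τ) σ τ (hrep' σ θ' hθE) (hrep' τ θ' hθE)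
    have h4 := hkey (rep σ) (rep τ) σ' τ' ((hrep' σ θ' hθE).trans h1) ((hrep' τ θ' hθE).trans h2)
    obtain ⟨i, hi1, hi2⟩ := (h3.and h4).exists
    exact hi1.symm.trans hi2
  have hmul : ∀ σ τ, proj U F P (rep σ * rep τ) θ' = (σ * τ) θ' := by
    intro σ τ
    rw [map_mul, AlgEquiv.mul_apply, AlgEquiv.mul_apply, hrep' τ θ' hθE, hrep' σ _ (hstab τ θ' hθE)]
  have hcoc : IsCocycle c' := by
    constructor
    · refine isLocallyConstant_of_agree₂ E' c' fun σ τ σ' τ' h1 h2 => ?_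
      exact hcongr _ _ _ _ (h1 θ' hθE) (h2 θ' hθE)
    · intro σ τ κ
      have h1 := hkey (rep τ) (rep κ) τ κ (hrep' τ θ' hθE) (hrep' κ θ' hθE)
      have h2 := hkey (rep σ * rep τ) (rep κ) (σ * τ) κ (hmul σ τ) (hrep' κ θ' hθE)
      have h3 := hkey (rep σ) (rep τ * rep κ) σ (τ * κ) (hrep' σ θ' hθE) (hmul τ κ)
      have h4 := hkey (rep σ) (rep τ) σ τ (hrep' σ θ' hθE) (hrep' τ θ' hθE)
      obtain ⟨i, ⟨hi1, hi2⟩, hi3, hi4⟩ := ((h1.and h2).and (h3.and h4)).exists
      rw [← hi1, ← hi2, ← hi3, ← hi4]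
      exact (hc i).2 _ _ _
  obtain ⟨m, ψ, ψ', b, hψ, hψ', hb, hid⟩ := MS (Ult U F) (PP U F P) (exists_root_of_unity U F hp hζ)
    (isMaxPro_PP U F P hp hP) c' hcoc
  refine ⟨m, ?_⟩
  choose ψi hψi1 hψi2 using fun k => exists_internal U F P (ψ k) (hψ k).1
  choose ψi' hψi1' hψi2' using fun k => exists_internal U F P (ψ' k) (hψ' k).1
  obtain ⟨bi, hbi1, hbi2⟩ := exists_internal U F P b hb
  have H1 : ∀ᶠ i in (U : Filter ℕ), ∀ k, ∀ g h, ψi k i (g * h) = ψi k i g + ψi k i h := by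
    refine Filter.eventually_all.2 fun k => ?_
    refine los (fun i g h => ψi k i (g * h) = ψi k i g + ψi k i h) fun g h => ?_
    filter_upwards [hψi2 k (g * h), hψi2 k g, hψi2 k h] with i h1 h2 h3
    have h4 : ψi k i (g i * h i) = ψ k (proj U F P (g * h)) := h1
    rw [h4, h2, h3, map_mul, (hψ k).2]
  have H2 : ∀ᶠ i in (U : Filter ℕ), ∀ k, ∀ g h, ψi' k i (g * h) = ψi' k i g + ψi' k i h := by
    refine Filter.eventually_all.2 fun k => ?_
    refine los (fun i g h => ψi' k i (g * h) = ψi' k i g + ψi' k i h) fun g h => ?_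
    filter_upwards [hψi2' k (g * h), hψi2' k g, hψi2' k h] with i h1 h2 h3
    have h4 : ψi' k i (g i * h i) = ψ' k (proj U F P (g * h)) := h1
    rw [h4, h2, h3, map_mul, (hψ' k).2]
  have H3 : ∀ᶠ i in (U : Filter ℕ), ∀ g h, c i g h = ∑ k, ψi k i g * ψi' k i h +
      (bi i g + bi i h - bi i (g * h)) := by
    refine los (fun i g h => c i g h = ∑ k, ψi k i g * ψi' k i h +
      (bi i g + bi i h - bi i (g * h))) fun g h => ?_
    have h1 := hkey g h (proj U F P g) (proj U F P h) rfl rfl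
    have h2 : ∀ᶠ i in (U : Filter ℕ), ∀ k, ψi k i (g i) = ψ k (proj U F P g) :=
      Filter.eventually_all.2 fun k => hψi2 k g
    have h3 : ∀ᶠ i in (U : Filter ℕ), ∀ k, ψi' k i (h i) = ψ' k (proj U F P h) :=
      Filter.eventually_all.2 fun k => hψi2' k h
    filter_upwards [h1, h2, h3, hbi2 g, hbi2 h, hbi2 (g * h)] with i hi1 hi2 hi3 hi4 hi5 hi6
    have h7 : bi i (g i * h i) = b (proj U F P (g * h)) := hi6
    rw [hi1, h7, hi4, hi5, map_mul, hid]
    congr 1
    exact Finset.sum_congr rfl fun k _ => by rw [hi2 k, hi3 k]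
  filter_upwards [H1, H2, H3] with i h1 h2 h3
  exact ⟨fun k => ψi k i, fun k => ψi' k i, bi i, fun k => ⟨hψi1 k i, h1 k⟩,
    fun k => ⟨hψi1' k i, h2 k⟩, hbi1 i, h3⟩

end

theorem SymbolLengthLE.mono {G : Type u} [Group G] [TopologicalSpace G] {p : ℕ}
    {c : G → G → ZMod p} {m m' : ℕ} (h : SymbolLengthLE c m) (hm : m ≤ m') : SymbolLengthLE c m' := by
  obtain ⟨k, rfl⟩ := Nat.exists_eq_add_of_le hm
  obtain ⟨ψ, ψ', b, h1, h2, h3, h4⟩ := h
  refine ⟨Fin.append ψ (fun _ _ => 0), Fin.append ψ' (fun _ _ => 0), b, ?_, ?_, h3, ?_⟩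
  · intro i
    refine Fin.addCases (fun j => ?_) (fun j => ?_) i
    · rw [Fin.append_left]; exact h1 j
    · rw [Fin.append_right]; exact ⟨IsLocallyConstant.const 0, fun _ _ => (add_zero 0).symm⟩
  · intro i
    refine Fin.addCases (fun j => ?_) (fun j => ?_) i
    · rw [Fin.append_left]; exact h2 j
    · rw [Fin.append_right]; exact ⟨IsLocallyConstant.const 0, fun _ _ => (add_zero 0).symm⟩
  · intro g h
    rw [h4 g h, Fin.sum_univ_add]
    simp only [Fin.append_left, Fin.append_right, mul_zero, Finset.sum_const_zero, add_zero]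

end Pool.Agent.H87.MS
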