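import Mathlib

/-!
# Massey products and symbol lengths in Galois cohomology: definitions

Everything is written with explicit inhomogeneous cochains of the group `G_F(p) = Gal(F(p)/F)` with the
trivial coefficients `ℤ/p`.
-/

set_option autoImplicit false

universe u v

namespace Pool.Agent.H87.MS

/-- `P` is the maximal pro-`p` Galois extension `F(p)` of `F` (unique up to isomorphism): `P / F` is
Galois, the Galois groups of the finite Galois extensions of `F` in `P` are `p`-groups, and every finite
Galois extension of `F` whose Galois group is a `p`-group can be embedded in `P`. So `Gal(P/F)` (with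
the Krull topology) is the maximal pro-`p` Galois group `G_F(p)`. -/
structure IsMaxPro (p : ℕ) (F P : Type u) [Field F] [Field P] [Algebra F P] : Prop where
  galois : IsGalois F P
  pro : ∀ E : IntermediateField F P, FiniteDimensional F E → IsGalois F E → IsPGroup p Gal(E/F)
  max : ∀ (E : Type u) [Field E] [Algebra F E], FiniteDimensional F E → IsGalois F E →
    IsPGroup p Gal(E/F) → Nonempty (E →ₐ[F] P)

section cochains

variable {G : Type v} [Group G] [TopologicalSpace G] {p : ℕ}

/-- `H¹(G, ℤ/p)`: the continuous homomorphisms to `ℤ/p` (the coboundaries are `0`). -/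
def IsH1 (ψ : G → ZMod p) : Prop := IsLocallyConstant ψ ∧ ∀ g h, ψ (g * h) = ψ g + ψ h

/-- Continuous 2-cocycles with values in `ℤ/p`. -/
def IsCocycle (c : G → G → ZMod p) : Prop :=
  IsLocallyConstant (fun x : G × G => c x.1 x.2) ∧
    ∀ g h k, c h k - c (g * h) k + c g (h * k) - c g h = 0

/-- The class of the 2-cocycle `c` in `H²(G, ℤ/p)` is a sum of `m` cup products `ψ ∪ ψ'` of classes in
`H¹(G, ℤ/p)`, so its symbol length is at most `m` (classes in `H¹` may be zero). Here
`b g + b h - b (g h)` is the coboundary of the continuous 1-cochain `b`. -/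
def SymbolLengthLE (c : G → G → ZMod p) (m : ℕ) : Prop :=
  ∃ (ψ ψ' : Fin m → G → ZMod p) (b : G → ZMod p), (∀ i, IsH1 (ψ i)) ∧ (∀ i, IsH1 (ψ' i)) ∧
    IsLocallyConstant b ∧ ∀ g h, c g h = ∑ i, ψ i g * ψ' i h + (b g + b h - b (g * h))

/-- The symbol length of the class of the 2-cocycle `c` in `H²(G, ℤ/p)`: the least `m` such that the
class is a sum of `m` cup products of classes in `H¹(G, ℤ/p)`, and `⊤` if there is no such `m` (by the
Merkurjev-Suslin theorem this does not occur for `G = G_F(p)`, `F` a field with a primitive `p`-th root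
of unity). -/
noncomputable def symbolLength (c : G → G → ZMod p) : ℕ∞ :=
  ⨅ m : {m : ℕ // SymbolLengthLE c m}, ((m : ℕ) : ℕ∞)

/-- `a` is a defining system for the `n`-fold Massey product `⟨φ 0, …, φ (n - 1)⟩`, `n ≥ 2`: continuous
cochains `a i j` for `0 ≤ i < j ≤ n`, `(i, j) ≠ (0, n)`, with `a i (i + 1) = φ i` and
`δ (a i j) = ∑_{i < k < j} a i k ∪ a k j`, where `(δ f) (g, h) = f g + f h - f (g h)`. (The other values of
`a` play no role.) -/
structure IsDefiningSystem {n : ℕ} (φ : Fin n → G → ZMod p)
    (a : Fin (n + 1) → Fin (n + 1) → G → ZMod p) : Prop where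
  cont : ∀ i j, i < j → ¬ (i = 0 ∧ j = Fin.last n) → IsLocallyConstant (a i j)
  diag : ∀ i : Fin n, a i.castSucc i.succ = φ i
  rel : ∀ i j, i < j → ¬ (i = 0 ∧ j = Fin.last n) → ∀ g h,
    a i j g + a i j h - a i j (g * h) = ∑ k ∈ Finset.Ioo i j, a i k g * a k j h

/-- The value `∑_{0 < k < n} a 0 k ∪ a k n` of a defining system, a 2-cocycle. -/
def masseyValue {n : ℕ} (a : Fin (n + 1) → Fin (n + 1) → G → ZMod p) (g h : G) : ZMod p :=
  ∑ k ∈ Finset.Ioo 0 (Fin.last n), a 0 k g * a k (Fin.last n) h

/-- The 2-cocycle `c` represents an element of the Massey product `⟨φ 0, …, φ (n - 1)⟩ ⊆ H²(G, ℤ/p)`: it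
is the value of a defining system plus the coboundary of a continuous cochain. -/
def RepresentsMassey {n : ℕ} (φ : Fin n → G → ZMod p) (c : G → G → ZMod p) : Prop :=
  ∃ (a : Fin (n + 1) → Fin (n + 1) → G → ZMod p) (b : G → ZMod p), IsDefiningSystem φ a ∧
    IsLocallyConstant b ∧ ∀ g h, c g h = masseyValue a g h + (b g + b h - b (g * h))

end cochains

/-- The Merkurjev-Suslin theorem for `p` (in the form recalled in the setting of the problem): for
every field `F` with a primitive `p`-th root of unity every class in `H²(G_F(p), ℤ/p)` is a sum of cup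
products of classes in `H¹(G_F(p), ℤ/p)`. -/
def MerkurjevSuslin (p : ℕ) : Prop :=
  ∀ (F P : Type u) [Field F] [Field P] [Algebra F P], (∃ ζ : F, IsPrimitiveRoot ζ p) →
    IsMaxPro p F P → ∀ c : Gal(P/F) → Gal(P/F) → ZMod p, IsCocycle c → ∃ m, SymbolLengthLE c m

end Pool.Agent.H87.MS
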