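import Pool.Agent.H87.MS.Max

/-!
# The ultraproduct of maximal pro-`p` extensions contains the maximal pro-`p` extension
-/

set_option autoImplicit false

universe u

open Filter Polynomial

namespace Pool.Agent.H87.MS

section

variable (U : Ultrafilter ℕ) (F P : ℕ → Type u) [∀ i, Field (F i)] [∀ i, Field (P i)]
  [∀ i, Algebra (F i) (P i)]

attribute [local instance] alg

/-- Almost all splitting fields of a lifted polynomial are `p`-extensions. -/
theorem eventually_pGroup {p : ℕ} (hp : p.Prime) (E : Type u) [Field E] [Algebra (Ult U F) E]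
    [FiniteDimensional (Ult U F) E] [IsGalois (Ult U F) E] (hE : IsPGroup p Gal(E/(Ult U F)))
    (pb : PowerBasis (Ult U F) E) (Q : (∀ i, F i)[X]) (hQm : Q.Monic) {d : ℕ} (hd : Q.natDegree = d)
    (hd0 : 0 < d) (hQ : Q.map (mk U F) = minpoly (Ult U F) pb.gen) :
    ∀ᶠ i in (U : Filter ℕ), IsPGroup p (comp Q i).Gal := by
  classical
  have hmon : ∀ i, (comp Q i).Monic := fun i => hQm.map _
  have hdeg : ∀ i, (comp Q i).natDegree = d := fun i => by
    unfold comp
    rw [hQm.natDegree_map, hd]
  let N : ℕ → Type u := fun i => (comp Q i).SplittingField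
  have hsp : ∀ i, ((comp Q i).map (algebraMap (F i) (N i))).Splits := fun i =>
    SplittingField.splits (comp Q i)
  have hr : ∀ i, ∃ r : Fin d → N i, (comp Q i).map (algebraMap (F i) (N i)) = ∏ j, (X - C (r j)) :=
    fun i => exists_roots (hsp i) ((hmon i).map _) (by rw [(hmon i).natDegree_map, hdeg i])
  choose r hr using hr
  have hprod := map_eq_prod (U := U) Q r hr
  rw [hQ] at hprod
  -- the embedding of `E`
  have hroot : ∀ j, aeval (mk U N (fun i => r i j)) (minpoly (Ult U F) pb.gen) = 0 := by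
    intro j
    rw [aeval_def, ← eval_map, hprod, eval_prod]
    exact Finset.prod_eq_zero (Finset.mem_univ j) (by simp)
  let e0 : E →ₐ[Ult U F] Ult U N := pb.lift _ (hroot ⟨0, hd0⟩)
  -- all the roots are in the image
  have himg : ∀ j, ∃ x, e0 x = mk U N (fun i => r i j) := by
    intro j
    have h1 : ((minpoly (Ult U F) pb.gen).map (algebraMap (Ult U F) E)).Splits :=
      Normal.splits inferInstance pb.gen
    have h2 := h1.image_rootSet e0
    have h3 : mk U N (fun i => r i j) ∈ (minpoly (Ult U F) pb.gen).rootSet (Ult U N) := by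
      rw [mem_rootSet]
      exact ⟨minpoly.ne_zero (Algebra.IsIntegral.isIntegral _), hroot j⟩
    rw [← h2] at h3
    obtain ⟨x, _, hx⟩ := h3
    exact ⟨x, hx⟩
  by_contra hcon
  rw [← Ultrafilter.eventually_not] at hcon
  have hh : ∀ i, ∃ h : (comp Q i).Gal, ¬ IsPGroup p (comp Q i).Gal → ∀ k, h ^ p ^ k ≠ 1 := by
    intro i
    by_cases h : IsPGroup p (comp Q i).Gal
    · exact ⟨1, fun h' => absurd h h'⟩
    · unfold IsPGroup at h
      push Not at h
      obtain ⟨g, hg⟩ := h
      exact ⟨g, fun _ => hg⟩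
  choose h hh using hh
  obtain ⟨a, m, hm, ham⟩ := Nat.exists_eq_pow_mul_and_not_dvd (Nat.factorial_ne_zero d) p hp.ne_one
  have hcop : Nat.Coprime m p := ((Nat.Prime.coprime_iff_not_dvd hp).2 hm).symm
  have hfac : ∀ i, (h i) ^ (p ^ a * m) = 1 := by
    intro i
    rw [← ham]
    have : Fact (((comp Q i).map (algebraMap (F i) (N i))).Splits) := ⟨hsp i⟩
    have h1 := Polynomial.Gal.galActionHom_injective (comp Q i) (N i)
    refine h1 ?_
    rw [map_pow, map_one]
    have h2 : Fintype.card (Equiv.Perm ((comp Q i).rootSet (N i))) ∣ d.factorial := by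
      rw [Fintype.card_perm]
      refine Nat.factorial_dvd_factorial ?_
      rw [← Set.toFinset_card, ← Set.ncard_eq_toFinset_card']
      refine le_trans (Polynomial.ncard_rootSet_le _ _) ?_
      rw [hdeg i]
    obtain ⟨c, hc⟩ := h2
    rw [hc, pow_mul, pow_card_eq_one, one_pow]
  let h' : ∀ i, N i ≃ₐ[F i] N i := fun i => (h i) ^ p ^ a
  have hm1 : ∀ i, (h' i) ^ m = 1 := fun i => by
    have h3 := hfac i
    rw [pow_mul] at h3
    exact h3
  -- the action on `E`
  let _ : Algebra E (Ult U N) := e0.toRingHom.toAlgebra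
  have : IsScalarTower (Ult U F) E (Ult U N) := IsScalarTower.of_algebraMap_eq fun x => (e0.commutes x).symm
  let A : Ult U N ≃ₐ[Ult U F] Ult U N := actHom U F N h'
  have hA : A ^ m = 1 := by
    show actHom U F N h' ^ m = 1
    rw [← map_pow]
    have : h' ^ m = 1 := funext hm1
    rw [this, map_one]
  have hτ : AlgEquiv.restrictNormalHom E A = 1 := by
    obtain ⟨k, hk⟩ := hE (AlgEquiv.restrictNormalHom E A)
    have h4 : (AlgEquiv.restrictNormalHom E A) ^ m = 1 := by rw [← map_pow, hA, map_one]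
    have h5 := mem_of_coprime (⊥ : Subgroup Gal(E/(Ult U F))) (Nat.Coprime.pow_right k hcop)
      (Subgroup.mem_bot.2 h4) (Subgroup.mem_bot.2 hk)
    exact Subgroup.mem_bot.1 h5
  have hfix : ∀ x : E, A (e0 x) = e0 x := by
    intro x
    have h6 := AlgEquiv.restrictNormal_commutes A E x
    have h7 : AlgEquiv.restrictNormal A E = 1 := hτ
    rw [h7] at h6
    exact h6.symm
  have hfix2 : ∀ j, ∀ᶠ i in (U : Filter ℕ), h' i (r i j) = r i j := by
    intro j
    obtain ⟨x, hx⟩ := himg j
    have h8 := hfix x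
    rw [hx] at h8
    exact mk_eq.1 h8
  have hfix3 : ∀ᶠ i in (U : Filter ℕ), ∀ j, h' i (r i j) = r i j := Filter.eventually_all.2 hfix2
  obtain ⟨i, hi1, hi2⟩ := (hcon.and hfix3).exists
  refine hh i hi1 a ?_
  refine Polynomial.Gal.ext _ fun x hx => ?_
  have h9 : ∃ j, x = r i j := by
    rw [mem_rootSet] at hx
    have h10 := hx.2
    rw [aeval_def, ← eval_map, hr i, eval_prod, Finset.prod_eq_zero_iff] at h10
    obtain ⟨j, _, hj⟩ := h10
    refine ⟨j, ?_⟩
    rw [eval_sub, eval_X, eval_C, sub_eq_zero] at hj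
    exact hj
  obtain ⟨j, rfl⟩ := h9
  exact hi2 j

/-- Every finite Galois `p`-extension of the ultraproduct of the `F i` is contained in the ultraproduct
of the `P i`. -/
theorem exists_embedding {p : ℕ} (hp : p.Prime) (hP : ∀ i, IsMaxPro p (F i) (P i)) (E : Type u) [Field E]
    [Algebra (Ult U F) E] (hfd : FiniteDimensional (Ult U F) E) (hgal : IsGalois (Ult U F) E)
    (hE : IsPGroup p Gal(E/(Ult U F))) : Nonempty (E →ₐ[Ult U F] PP U F P) := by
  classical
  let pb := Field.powerBasisOfFiniteOfSeparable (Ult U F) E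
  have hint : IsIntegral (Ult U F) pb.gen := Algebra.IsIntegral.isIntegral _
  obtain ⟨Q, hQ, hQd, hQm⟩ := lifts_and_natDegree_eq_and_monic
    (mem_lifts_of_surjective (f := mk U F) mk_surjective (minpoly (Ult U F) pb.gen)) (minpoly.monic hint)
  have hd0 : 0 < Q.natDegree := by rw [hQd]; exact minpoly.natDegree_pos hint
  have h1 := eventually_pGroup U F hp E hE pb Q hQm rfl hd0 hQ
  have h2 : ∀ᶠ i in (U : Filter ℕ), (comp Q i).Separable := by
    refine comp_separable ?_
    rw [hQ]
    exact Algebra.IsSeparable.isSeparable (Ult U F) pb.gen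
  have h3 : ∀ᶠ i in (U : Filter ℕ), ∃ t : P i, aeval t (comp Q i) = 0 := by
    filter_upwards [h1, h2] with i hi1 hi2
    have hg : IsGalois (F i) (comp Q i).SplittingField := IsGalois.of_separable_splitting_field hi2
    obtain ⟨e⟩ := (hP i).max (comp Q i).SplittingField inferInstance hg hi1
    have h4 : ((comp Q i).map (algebraMap (F i) (comp Q i).SplittingField)).Splits :=
      SplittingField.splits (comp Q i)
    have h5 : ((comp Q i).map (algebraMap (F i) (comp Q i).SplittingField)).degree ≠ 0 := by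
      rw [degree_map]
      intro h6
      have h7 := natDegree_eq_of_degree_eq_some h6
      unfold comp at h7
      rw [hQm.natDegree_map] at h7
      exact hd0.ne' h7
    obtain ⟨x, hx⟩ := h4.exists_eval_eq_zero h5
    refine ⟨e x, ?_⟩
    rw [aeval_algHom_apply, aeval_def, ← eval_map, hx, map_zero]
  have h4 : ∀ i, ∃ t : P i, (∃ t : P i, aeval t (comp Q i) = 0) → aeval t (comp Q i) = 0 := by
    intro i
    by_cases h : ∃ t : P i, aeval t (comp Q i) = 0
    · obtain ⟨t, ht⟩ := h
      exact ⟨t, fun _ => ht⟩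
    · exact ⟨0, fun h' => absurd h' h⟩
  choose t ht using h4
  have h5 : aeval (mk U P t) (minpoly (Ult U F) pb.gen) = 0 := by
    rw [← hQ, aeval_mk, ← map_zero (mk U P), mk_eq]
    filter_upwards [h3] with i hi
    exact ht i hi
  let e : E →ₐ[Ult U F] Ult U P := pb.lift _ h5
  have h6 : ∀ x, e x ∈ (PP U F P).toSubalgebra := by
    intro x
    have h7 : IsAlgebraic (Ult U F) (e x) := (Algebra.IsAlgebraic.isAlgebraic x).algHom e
    exact mem_algebraicClosure_iff.2 h7
  exact ⟨e.codRestrict (PP U F P).toSubalgebra h6⟩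

/-- The ultraproduct: a maximal pro-`p` extension. -/
theorem isMaxPro_PP {p : ℕ} (hp : p.Prime) (hP : ∀ i, IsMaxPro p (F i) (P i)) :
    IsMaxPro p (Ult U F) (PP U F P) where
  galois := by
    have hg : ∀ i, IsGalois (F i) (P i) := fun i => (hP i).galois
    exact isGalois_PP U F P
  pro := fun E h1 h2 => pro_PP U F P hp hP E h1 h2
  max := fun E _ _ h1 h2 h3 => exists_embedding U F P hp hP E h1 h2 h3

theorem exists_root_of_unity {p : ℕ} (hp : p.Prime) (h : ∀ i, ∃ ζ : F i, IsPrimitiveRoot ζ p) :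
    ∃ ζ : Ult U F, IsPrimitiveRoot ζ p := by
  choose ζ hζ using h
  refine ⟨mk U F ζ, ?_⟩
  have h1 : (mk U F ζ) ^ p = 1 := by
    rw [← map_pow, ← map_one (mk U F), mk_eq]
    exact Filter.Eventually.of_forall fun i => (hζ i).pow_eq_one
  have h2 : mk U F ζ ≠ 1 := by
    rw [← map_one (mk U F), Ne, mk_eq]
    intro h3
    obtain ⟨i, hi⟩ := h3.exists
    exact (hζ i).ne_one hp.one_lt hi
  have := Fact.mk hp
  have h3 := orderOf_eq_prime h1 h2
  rw [← h3]
  exact IsPrimitiveRoot.orderOf _

end

end Pool.Agent.H87.MS
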