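import Pool.Agent.H87.MS.Sup

/-!
# The supremum is attained
-/

set_option autoImplicit false
set_option linter.unusedSectionVars false

universe u v

open Filter Polynomial

namespace Pool.Agent.H87.MS

section

variable {G : Type v} [Group G] [TopologicalSpace G] {p : ℕ}

theorem SymbolLengthLE.congr {c c' : G → G → ZMod p} {b : G → ZMod p} (hb : IsLocallyConstant b)
    (h : ∀ g h, c' g h = c g h + (b g + b h - b (g * h))) {m : ℕ} (hc : SymbolLengthLE c m) :
    SymbolLengthLE c' m := by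
  obtain ⟨ψ, ψ', b', h1, h2, h3, h4⟩ := hc
  refine ⟨ψ, ψ', fun g => b' g + b g, h1, h2, h3.add hb, fun g k => ?_⟩
  rw [h, h4]
  ring

theorem symbolLength_le_iff {G : Type u} [Group G] [TopologicalSpace G] {c : G → G → ZMod p} {m : ℕ} :
    symbolLength c ≤ m ↔ SymbolLengthLE c m := by
  constructor
  · intro h
    by_contra hcon
    have h1 : ((m + 1 : ℕ) : ℕ∞) ≤ symbolLength c := by
      unfold symbolLength
      refine le_iInf fun k => ?_
      have h2 : m + 1 ≤ (k : ℕ) := by
        by_contra h3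
        exact hcon (k.2.mono (by omega))
      exact_mod_cast h2
    have h4 := h1.trans h
    have h5 : m + 1 ≤ m := by exact_mod_cast h4
    omega
  · intro h
    exact iInf_le (fun m : {m : ℕ // SymbolLengthLE c m} => ((m : ℕ) : ℕ∞)) ⟨m, h⟩

theorem symbolLength_eq_top {G : Type u} [Group G] [TopologicalSpace G] {c : G → G → ZMod p}
    (h : ∀ m, ¬ SymbolLengthLE c m) : symbolLength c = ⊤ := by
  unfold symbolLength
  have : IsEmpty {m : ℕ // SymbolLengthLE c m} := ⟨fun m => h _ m.2⟩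
  exact iInf_of_empty _

end

/-- A field with an element of an `n`-fold Massey product of large symbol length. -/
structure Datum' (p n M : ℕ) : Type (u + 1) where
  (F P : Type u)
  [iF : Field F]
  [iP : Field P]
  [iA : Algebra F P]
  hζ : ∃ ζ : F, IsPrimitiveRoot ζ p
  hP : IsMaxPro p F P
  φ : Fin n → Gal(P/F) → ZMod p
  a : Fin (n + 1) → Fin (n + 1) → Gal(P/F) → ZMod p
  ha : IsDefiningSystem φ a
  bad : ¬ SymbolLengthLE (masseyValue a) M

theorem exists_datum {p n M : ℕ} {F P : Type u} [Field F] [Field P] [Algebra F P]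
    (hζ : ∃ ζ : F, IsPrimitiveRoot ζ p) (hP : IsMaxPro p F P) {φ : Fin n → Gal(P/F) → ZMod p}
    {c : Gal(P/F) → Gal(P/F) → ZMod p} (hc : RepresentsMassey φ c) (h : ¬ SymbolLengthLE c M) :
    Nonempty (Datum'.{u} p n M) := by
  obtain ⟨a, b, ha, hb, hcb⟩ := hc
  exact ⟨⟨F, P, hζ, hP, φ, a, ha, fun h1 => h (h1.congr hb hcb)⟩⟩

/-- The conclusion of the main theorem. -/
def MaxAttained (p n : ℕ) : Prop :=
  ∃ (F₀ P₀ : Type u) (_ : Field F₀) (_ : Field P₀) (_ : Algebra F₀ P₀)
    (φ₀ : Fin n → Gal(P₀/F₀) → ZMod p) (c₀ : Gal(P₀/F₀) → Gal(P₀/F₀) → ZMod p),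
    (∃ ζ : F₀, IsPrimitiveRoot ζ p) ∧ IsMaxPro p F₀ P₀ ∧ RepresentsMassey φ₀ c₀ ∧
    ∀ (F P : Type u) [Field F] [Field P] [Algebra F P], (∃ ζ : F, IsPrimitiveRoot ζ p) →
      IsMaxPro p F P → ∀ (φ : Fin n → Gal(P/F) → ZMod p) (c : Gal(P/F) → Gal(P/F) → ZMod p),
      RepresentsMassey φ c → symbolLength c ≤ symbolLength c₀

theorem representsMassey_masseyValue {G : Type v} [Group G] [TopologicalSpace G] {p n : ℕ}
    {φ : Fin n → G → ZMod p} {a : Fin (n + 1) → Fin (n + 1) → G → ZMod p}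
    (ha : IsDefiningSystem φ a) : RepresentsMassey φ (masseyValue a) :=
  ⟨a, fun _ => 0, ha, IsLocallyConstant.const 0, fun g h => by ring⟩

theorem maxAttained_of_datum {p n M : ℕ} (D : Datum'.{u} p n M)
    (h : ∀ (F P : Type u) [Field F] [Field P] [Algebra F P], (∃ ζ : F, IsPrimitiveRoot ζ p) →
      IsMaxPro p F P → ∀ (φ : Fin n → Gal(P/F) → ZMod p) (c : Gal(P/F) → Gal(P/F) → ZMod p),
      RepresentsMassey φ c → symbolLength c ≤ (M + 1 : ℕ)) : MaxAttained.{u} p n := by
  let iF := D.iF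
  let iP := D.iP
  let iA := D.iA
  refine ⟨D.F, D.P, D.iF, D.iP, D.iA, D.φ, masseyValue D.a, D.hζ, D.hP,
    representsMassey_masseyValue D.ha, fun F P _ _ _ h1 h2 φ c h3 => ?_⟩
  refine (h F P h1 h2 φ c h3).trans ?_
  by_contra hcon
  have h4 : symbolLength (masseyValue D.a) < (M + 1 : ℕ) := not_le.1 hcon
  obtain ⟨k, hk⟩ := ENat.ne_top_iff_exists.1 (ne_top_of_lt h4)
  rw [← hk] at h4
  have h5 : k < M + 1 := by exact_mod_cast h4
  exact D.bad (symbolLength_le_iff.1 (by rw [← hk]; exact_mod_cast (by omega : k ≤ M)))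

theorem maxAttained {p : ℕ} (hp : p.Prime) (n : ℕ) : MaxAttained.{u} p n := by
  classical
  by_cases hbd : ∃ M : ℕ, ¬ Nonempty (Datum'.{u} p n M)
  · -- a finite bound
    have hM := Nat.find_spec hbd
    have hle : ∀ (F P : Type u) [Field F] [Field P] [Algebra F P], (∃ ζ : F, IsPrimitiveRoot ζ p) →
        IsMaxPro p F P → ∀ (φ : Fin n → Gal(P/F) → ZMod p) (c : Gal(P/F) → Gal(P/F) → ZMod p),
        RepresentsMassey φ c → symbolLength c ≤ (Nat.find hbd : ℕ) := by
      intro F P _ _ _ h1 h2 φ c h3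
      by_contra h4
      exact hM (exists_datum h1 h2 h3 (fun h5 => h4 (symbolLength_le_iff.2 h5)))
    rcases Nat.eq_zero_or_pos (Nat.find hbd) with h0 | h0
    · -- the bound is zero: any field will do
      rw [h0] at hle
      let K : Type u := AlgebraicClosure (ULift.{u} ℚ)
      have hζ : ∃ ζ : K, IsPrimitiveRoot ζ p := by
        have hc : CharZero K := charZero_of_injective_algebraMap
          (((algebraMap (ULift.{u} ℚ) K).comp (ULift.ringEquiv (R := ℚ)).symm.toRingHom).injective)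
        have : NeZero (p : K) := ⟨by exact_mod_cast hp.ne_zero⟩
        exact HasEnoughRootsOfUnity.exists_primitiveRoot K p
      refine ⟨K, K, inferInstance, inferInstance, inferInstance, fun _ _ => 0, masseyValue fun _ _ _ => 0,
        hζ, isMaxPro_self p K, representsMassey_masseyValue
          ⟨fun _ _ _ _ => IsLocallyConstant.const 0, fun _ => rfl, fun _ _ _ _ _ _ => by simp⟩, ?_⟩
      intro F P _ _ _ h1 h2 φ c h3
      refine (hle F P h1 h2 φ c h3).trans ?_
      rw [Nat.cast_zero]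
      exact bot_le
    · obtain ⟨M, hM'⟩ : ∃ M, Nat.find hbd = M + 1 := ⟨Nat.find hbd - 1, by omega⟩
      have h1 : Nonempty (Datum'.{u} p n M) := not_not.1 (Nat.find_min hbd (by omega))
      rw [hM'] at hle
      exact maxAttained_of_datum h1.some hle
  · -- no finite bound: an ultraproduct
    push Not at hbd
    let D : ∀ M, Datum'.{u} p n M := fun M => (hbd M).some
    let F : ℕ → Type u := fun i => (D i).F
    let P : ℕ → Type u := fun i => (D i).P
    let iF : ∀ i, Field (F i) := fun i => (D i).iF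
    let iP : ∀ i, Field (P i) := fun i => (D i).iP
    let iA : ∀ i, Algebra (F i) (P i) := fun i => (D i).iA
    let iAlg : Algebra (Ult (hyperfilter ℕ) F) (Ult (hyperfilter ℕ) P) := alg (hyperfilter ℕ) F P
    obtain ⟨φ', a', ha', hm⟩ := massey_external (hyperfilter ℕ) F P hp (fun i => (D i).hP)
      (fun i => (D i).φ) (fun i => (D i).a) (fun i => (D i).ha)
    refine ⟨Ult (hyperfilter ℕ) F, PP (hyperfilter ℕ) F P, inferInstance, inferInstance, inferInstance,
      φ', masseyValue a', exists_root_of_unity (hyperfilter ℕ) F hp (fun i => (D i).hζ),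
      isMaxPro_PP (hyperfilter ℕ) F P hp (fun i => (D i).hP), representsMassey_masseyValue ha', ?_⟩
    intro F' P' _ _ _ _ _ φ c _
    rw [symbolLength_eq_top (c := masseyValue a')]
    · exact le_top
    · intro m h1
      have h2 : ∀ᶠ i in ((hyperfilter ℕ : Ultrafilter ℕ) : Filter ℕ), m ≤ i :=
        Nat.hyperfilter_le_atTop (eventually_ge_atTop m)
      obtain ⟨i, hi1, hi2⟩ := ((hm m h1).and h2).exists
      exact (D i).bad (hi1.mono hi2)

end Pool.Agent.H87.MS
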