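import Pool.Agent.H87.MS.Emb

/-!
# Transfer between the Galois groups `Gal(P i / F i)` and the Galois group of the ultraproduct
-/

set_option autoImplicit false

universe u

open Filter Polynomial

namespace Pool.Agent.H87.MS

section general

variable {U : Ultrafilter ℕ}

theorem exists_ultralimit {T : Type} [Finite T] (z : ℕ → T) : ∃ v, ∀ᶠ i in (U : Filter ℕ), z i = v := by
  have h1 : (Set.univ : Set T).Finite := Set.finite_univ
  have h2 : ∀ᶠ i in (U : Filter ℕ), ∃ v ∈ (Set.univ : Set T), z i = v :=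
    Filter.Eventually.of_forall fun i => ⟨z i, trivial, rfl⟩
  by_contra h
  push Not at h
  have h3 : ∀ v : T, ∀ᶠ i in (U : Filter ℕ), ¬ z i = v := h
  have h4 : ∀ᶠ i in (U : Filter ℕ), ∀ v, ¬ z i = v := Filter.eventually_all.2 h3
  obtain ⟨i, hi⟩ := h4.exists
  exact hi (z i) rfl

theorem los {G : ℕ → Type u} [∀ i, Nonempty (G i)] (R : ∀ i, G i → G i → Prop)
    (h : ∀ g k : ∀ i, G i, ∀ᶠ i in (U : Filter ℕ), R i (g i) (k i)) :
    ∀ᶠ i in (U : Filter ℕ), ∀ g k, R i g k := by
  classical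
  by_contra hcon
  rw [← Ultrafilter.eventually_not] at hcon
  have h1 : ∀ i, ∃ x : G i × G i, ¬ (∀ g k, R i g k) → ¬ R i x.1 x.2 := by
    intro i
    by_cases hi : ∀ g k, R i g k
    · exact ⟨Classical.arbitrary _, fun h => absurd hi h⟩
    · push Not at hi
      obtain ⟨g, k, hgk⟩ := hi
      exact ⟨(g, k), fun _ => hgk⟩
  choose x hx using h1
  obtain ⟨i, h2, h3⟩ := (hcon.and (h (fun i => (x i).1) (fun i => (x i).2))).exists
  exact hx i h2 h3

end general

section krull

variable {K L : Type u} [Field K] [Field L] [Algebra K L]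

theorem isOpen_agree (E : IntermediateField K L) [FiniteDimensional K E] (σ : Gal(L/K)) :
    IsOpen {τ : Gal(L/K) | ∀ x ∈ E, τ x = σ x} := by
  have h1 := E.fixingSubgroup_isOpen
  have h2 := h1.preimage (continuous_const_mul (σ⁻¹ : Gal(L/K)))
  convert h2 using 1
  ext τ
  simp only [Set.mem_ofPred_eq, Set.mem_preimage, SetLike.mem_coe]
  rw [IntermediateField.mem_fixingSubgroup_iff]
  refine forall₂_congr fun x _ => ?_
  rw [AlgEquiv.mul_apply]
  constructor
  · intro h
    rw [h]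
    exact σ.symm_apply_apply x
  · intro h
    have h3 := congrArg σ h
    rwa [show σ (σ⁻¹ (τ x)) = τ x from σ.apply_symm_apply (τ x)] at h3

theorem isLocallyConstant_of_agree {T : Type} (E : IntermediateField K L) [FiniteDimensional K E]
    (f : Gal(L/K) → T) (h : ∀ σ τ, (∀ x ∈ E, τ x = σ x) → f τ = f σ) : IsLocallyConstant f := by
  rw [IsLocallyConstant.iff_exists_open]
  intro σ
  exact ⟨_, isOpen_agree E σ, fun x _ => rfl, fun τ hτ => h σ τ hτ⟩

theorem isLocallyConstant_of_agree₂ {T : Type} (E : IntermediateField K L) [FiniteDimensional K E]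
    (f : Gal(L/K) → Gal(L/K) → T)
    (h : ∀ σ τ σ' τ', (∀ x ∈ E, τ x = σ x) → (∀ x ∈ E, τ' x = σ' x) → f τ τ' = f σ σ') :
    IsLocallyConstant (fun x : Gal(L/K) × Gal(L/K) => f x.1 x.2) := by
  rw [IsLocallyConstant.iff_exists_open]
  intro σ
  exact ⟨_, (isOpen_agree E σ.1).prod (isOpen_agree E σ.2), ⟨fun x _ => rfl, fun x _ => rfl⟩,
    fun τ hτ => h _ _ _ _ hτ.1 hτ.2⟩

/-- A locally constant function on a Galois group depends only on the restriction to a finite Galois
subextension. -/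
theorem exists_level [IsGalois K L] {T : Type} (f : Gal(L/K) → T) (hf : IsLocallyConstant f) :
    ∃ E : IntermediateField K L, FiniteDimensional K E ∧ IsGalois K E ∧
      ∀ σ τ : Gal(L/K), (∀ x ∈ E, τ x = σ x) → f τ = f σ := by
  classical
  have h1 : ∀ σ : Gal(L/K), ∃ E : IntermediateField K L, FiniteDimensional K E ∧
      ∀ τ, (∀ x ∈ E, τ x = σ x) → f τ = f σ := by
    intro σ
    have h2 : f ⁻¹' {f σ} ∈ nhds σ := (hf {f σ}).mem_nhds rfl
    have h3 : (fun τ => σ * τ) ⁻¹' (f ⁻¹' {f σ}) ∈ nhds (1 : Gal(L/K)) := by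
      refine (continuous_const_mul σ).continuousAt.preimage_mem_nhds ?_
      rwa [mul_one]
    rw [krullTopology_mem_nhds_one_iff] at h3
    obtain ⟨E, hE, hsub⟩ := h3
    refine ⟨E, hE, fun τ hτ => ?_⟩
    have h4 : σ⁻¹ * τ ∈ (E.fixingSubgroup : Set Gal(L/K)) := by
      rw [SetLike.mem_coe, IntermediateField.mem_fixingSubgroup_iff]
      intro x hx
      rw [AlgEquiv.mul_apply, hτ x hx]
      exact σ.symm_apply_apply x
    have h5 := hsub h4
    simp only [Set.mem_preimage, mul_inv_cancel_left, Set.mem_singleton_iff] at h5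
    exact h5
  choose E hE1 hE2 using h1
  have hcov := isCompact_univ (X := Gal(L/K)).elim_finite_subcover
    (fun σ => {τ : Gal(L/K) | ∀ x ∈ E σ, τ x = σ x})
    (fun σ => by have := hE1 σ; exact isOpen_agree (E σ) σ)
    (fun σ _ => Set.mem_iUnion.2 ⟨σ, fun x _ => rfl⟩)
  obtain ⟨s, hs⟩ := hcov
  let E1 : IntermediateField K L := ⨆ σ ∈ s, E σ
  have hfin : FiniteDimensional K E1 := by
    have : ∀ σ, FiniteDimensional K (E σ) := hE1
    exact IntermediateField.finiteDimensional_iSup_of_finset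
  let E2 : IntermediateField K L := IntermediateField.normalClosure K E1 L
  refine ⟨E2, normalClosure.is_finiteDimensional K E1 L, IsGalois.normalClosure K E1 L, ?_⟩
  intro σ τ hστ
  have h6 := hs (Set.mem_univ σ)
  rw [Set.mem_iUnion₂] at h6
  obtain ⟨ρ, hρs, hρ⟩ := h6
  have hle : E ρ ≤ E2 := le_trans (le_iSup₂ (f := fun σ _ => E σ) ρ hρs) (IntermediateField.le_normalClosure E1)
  rw [hE2 ρ σ hρ, hE2 ρ τ (fun x hx => (hστ x (hle hx)).trans (hρ x hx))]

end krull

end Pool.Agent.H87.MS
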