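import Pool.Agent.H87.MS.Int

/-!
# Uniform bounds for symbol lengths
-/

set_option autoImplicit false

universe u

open Filter Polynomial

namespace Pool.Agent.H87.MS

section

variable (U : Ultrafilter ℕ) (F P : ℕ → Type u) [∀ i, Field (F i)] [∀ i, Field (P i)]
  [∀ i, Algebra (F i) (P i)]

attribute [local instance] alg

/-- The homomorphism from the sequences of automorphisms to the Galois group of the ultraproduct. -/
noncomputable def proj [Normal (Ult U F) (PP U F P)] :
    (∀ i, Gal(P i/F i)) →* Gal((PP U F P)/(Ult U F)) := restr (actHom U F P)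

theorem proj_mk [Normal (Ult U F) (PP U F P)] (g : ∀ i, Gal(P i/F i)) (x : PP U F P) (t : ∀ i, P i)
    (ht : mk U P t = x) : ((proj U F P g x : PP U F P) : Ult U P) = mk U P (fun i => g i (t i)) := by
  unfold proj
  rw [restr_apply, ← ht]
  rfl

/-- Internal representation of locally constant functions. -/
theorem exists_internal [∀ i, IsGalois (F i) (P i)] [IsGalois (Ult U F) (PP U F P)] {T : Type}
    [Inhabited T] (β : Gal((PP U F P)/(Ult U F)) → T) (hβ : IsLocallyConstant β) :
    ∃ b : ∀ i, Gal(P i/F i) → T, (∀ i, IsLocallyConstant (b i)) ∧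
      ∀ g : ∀ i, Gal(P i/F i), ∀ᶠ i in (U : Filter ℕ), b i (g i) = β (proj U F P g) := by
  classical
  obtain ⟨E, hE1, hE2, hE⟩ := exists_level β hβ
  let pb := Field.powerBasisOfFiniteOfSeparable (Ult U F) E
  set θ : PP U F P := (pb.gen : PP U F P) with hθ
  -- `β` depends only on the image of `θ`
  have hdep : ∀ σ τ : Gal((PP U F P)/(Ult U F)), τ θ = σ θ → β τ = β σ := by
    intro σ τ h
    refine hE σ τ fun x hx => ?_
    have h1 : (τ : (PP U F P) →ₐ[Ult U F] (PP U F P)).comp E.val =
        (σ : (PP U F P) →ₐ[Ult U F] (PP U F P)).comp E.val := pb.algHom_ext h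
    exact congrArg (fun f : E →ₐ[Ult U F] (PP U F P) => f ⟨x, hx⟩) h1
  have hfin : (Set.range fun σ : Gal((PP U F P)/(Ult U F)) => σ θ).Finite := by
    refine Set.Finite.subset ((minpoly (Ult U F) θ).rootSet_finite (PP U F P)) ?_
    rintro _ ⟨σ, rfl⟩
    rw [mem_rootSet]
    refine ⟨minpoly.ne_zero (Algebra.IsIntegral.isIntegral θ), ?_⟩
    show aeval ((σ : (PP U F P) →ₐ[Ult U F] (PP U F P)) θ) _ = 0
    rw [aeval_algHom_apply, minpoly.aeval, map_zero]
  set S : Finset (PP U F P) := hfin.toFinset with hS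
  have hmem : ∀ σ : Gal((PP U F P)/(Ult U F)), σ θ ∈ S := fun σ => by
    rw [hS, Set.Finite.mem_toFinset]
    exact ⟨σ, rfl⟩
  choose t ht using fun y : PP U F P => mk_surjective (U := U) (K := P) (y : Ult U P)
  let B : PP U F P → T := fun y => if h : ∃ σ : Gal((PP U F P)/(Ult U F)), σ θ = y then β h.choose else default
  have hB : ∀ σ, B (σ θ) = β σ := by
    intro σ
    have h : ∃ τ : Gal((PP U F P)/(Ult U F)), τ θ = σ θ := ⟨σ, rfl⟩
    show (if h : ∃ τ : Gal((PP U F P)/(Ult U F)), τ θ = σ θ then β h.choose else default) = β σ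
    rw [dif_pos h]
    exact hdep _ _ h.choose_spec
  let b : ∀ i, Gal(P i/F i) → T := fun i g =>
    if h : ∃ y ∈ S, g (t θ i) = t y i then B h.choose else default
  refine ⟨b, fun i => ?_, fun g => ?_⟩
  · have hint : IsIntegral (F i) (t θ i) := Algebra.IsIntegral.isIntegral _
    have hfd : FiniteDimensional (F i) (IntermediateField.adjoin (F i) {t θ i}) :=
      IntermediateField.adjoin.finiteDimensional hint
    refine isLocallyConstant_of_agree (IntermediateField.adjoin (F i) {t θ i}) (b i) fun σ τ h => ?_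
    have h1 := h (t θ i) (IntermediateField.mem_adjoin_simple_self (F i) (t θ i))
    show (if h : ∃ y ∈ S, τ (t θ i) = t y i then B h.choose else default) =
      (if h : ∃ y ∈ S, σ (t θ i) = t y i then B h.choose else default)
    simp only [h1]
  · set y : PP U F P := proj U F P g θ with hy
    have h1 : ∀ᶠ i in (U : Filter ℕ), g i (t θ i) = t y i := by
      rw [← mk_eq, ht y, hy, proj_mk U F P g θ (t θ) (ht θ)]
    have h2 : ∀ᶠ i in (U : Filter ℕ), ∀ y' ∈ S, y' ≠ y → t y' i ≠ t y i := by
      refine (Finset.eventually_all S).2 fun y' _ => ?_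
      by_cases hyy : y' = y
      · exact Filter.Eventually.of_forall fun i h => absurd hyy h
      · have h3 : ¬ ∀ᶠ i in (U : Filter ℕ), t y' i = t y i := by
          rw [← mk_eq, ht, ht]
          exact fun h => hyy (Subtype.ext h)
        rw [← Ultrafilter.eventually_not] at h3
        filter_upwards [h3] with i hi _
        exact hi
    filter_upwards [h1, h2] with i hi1 hi2
    have h4 : ∃ y' ∈ S, (g i) (t θ i) = t y' i := ⟨y, hmem _, hi1⟩
    show (if h : ∃ y ∈ S, (g i) (t θ i) = t y i then B h.choose else default) = _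
    rw [dif_pos h4]
    have h5 := h4.choose_spec
    have h6 : h4.choose = y := by
      by_contra hne
      exact hi2 _ h5.1 hne (h5.2.symm.trans hi1)
    rw [h6, hy, hB]

end

end Pool.Agent.H87.MS
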