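import Pool.Agent.H87.MS.Core

/-!
# Uniform bounds for the symbol lengths of Massey products
-/

set_option autoImplicit false
set_option linter.unusedSectionVars false

universe u v

open Filter Polynomial

namespace Pool.Agent.H87.MS

/-! ### the general bound -/

/-- A field with a cocycle of bounded level and of large symbol length. -/
structure Datum (p B M : ℕ) : Type (u + 1) where
  (F P : Type u)
  [iF : Field F]
  [iP : Field P]
  [iA : Algebra F P]
  hζ : ∃ ζ : F, IsPrimitiveRoot ζ p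
  hP : IsMaxPro p F P
  c : Gal(P/F) → Gal(P/F) → ZMod p
  hc : IsCocycle c
  E : IntermediateField F P
  hE : FiniteDimensional F E
  hB : Module.finrank F E ≤ B
  hf : ∀ g g' h h' : Gal(P/F), (∀ x ∈ E, g x = g' x) → (∀ x ∈ E, h x = h' x) → c g h = c g' h'
  bad : ¬ SymbolLengthLE c M

theorem exists_bound {p : ℕ} (hp : p.Prime) (MS : MerkurjevSuslin.{u} p) (B : ℕ) :
    ∃ M : ℕ, ∀ (F P : Type u) [Field F] [Field P] [Algebra F P], (∃ ζ : F, IsPrimitiveRoot ζ p) →
      IsMaxPro p F P → ∀ c : Gal(P/F) → Gal(P/F) → ZMod p, IsCocycle c →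
      ∀ E : IntermediateField F P, FiniteDimensional F E → Module.finrank F E ≤ B →
      (∀ g g' h h' : Gal(P/F), (∀ x ∈ E, g x = g' x) → (∀ x ∈ E, h x = h' x) → c g h = c g' h') →
      SymbolLengthLE c M := by
  by_contra hcon
  have h1 : ∀ M, Nonempty (Datum.{u} p B M) := by
    intro M
    by_contra hM
    rw [not_nonempty_iff] at hM
    refine hcon ⟨M, fun F P _ _ _ h1 h2 c h3 E h4 h5 h6 => ?_⟩
    by_contra h7
    exact hM.false ⟨F, P, h1, h2, c, h3, E, h4, h5, h6, h7⟩
  let D : ∀ M, Datum.{u} p B M := fun M => (h1 M).some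
  let F : ℕ → Type u := fun i => (D i).F
  let P : ℕ → Type u := fun i => (D i).P
  let iF : ∀ i, Field (F i) := fun i => (D i).iF
  let iP : ∀ i, Field (P i) := fun i => (D i).iP
  let iA : ∀ i, Algebra (F i) (P i) := fun i => (D i).iA
  obtain ⟨m, hm⟩ := core (hyperfilter ℕ) F P hp MS (fun i => (D i).hζ) (fun i => (D i).hP)
    (fun i => (D i).c) (fun i => (D i).hc) (fun i => (D i).E) (fun i => (D i).hE)
    (fun i => (D i).hB) (fun i => (D i).hf)
  have h2 : ∀ᶠ i in ((hyperfilter ℕ : Ultrafilter ℕ) : Filter ℕ), m ≤ i :=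
    Nat.hyperfilter_le_atTop (eventually_ge_atTop m)
  obtain ⟨i, hi1, hi2⟩ := (hm.and h2).exists
  exact (D i).bad (hi1.mono hi2)

/-! ### the level of a defining system -/

section level

variable {F P : Type u} [Field F] [Field P] [Algebra F P] [IsGalois F P]

theorem exists_level_of_finite {T : Type} [Finite T] (A : Gal(P/F) → T) (hA : IsLocallyConstant A)
    (hr : ∀ g g' h, A g = A g' → A (g * h) = A (g' * h))
    (hl : ∀ g g' h, A g = A g' → A (h * g) = A (h * g')) :
    ∃ E : IntermediateField F P, FiniteDimensional F E ∧ Module.finrank F E ≤ Nat.card T ∧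
      ∀ g g' : Gal(P/F), (∀ x ∈ E, g x = g' x) → A g = A g' := by
  classical
  let N : Subgroup Gal(P/F) :=
    { carrier := {g | A g = A 1}
      mul_mem' := by
        intro g h hg hh
        have h1 := hr g 1 h hg
        rw [one_mul] at h1
        exact h1.trans hh
      one_mem' := rfl
      inv_mem' := by
        intro g hg
        have h1 := hr g 1 g⁻¹ hg
        rw [mul_inv_cancel, one_mul] at h1
        exact h1.symm }
  have hNmem : ∀ g, g ∈ N ↔ A g = A 1 := fun g => Iff.rfl
  have hopen : IsOpen (N : Set Gal(P/F)) := hA {A 1}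
  have hclosed : IsClosed (N : Set Gal(P/F)) := N.isClosed_of_isOpen hopen
  let E : IntermediateField F P := IntermediateField.fixedField N
  have hfix : E.fixingSubgroup = N := InfiniteGalois.fixingSubgroup_fixedField ⟨N, hclosed⟩
  have hfd : FiniteDimensional F E := by
    rw [← InfiniteGalois.isOpen_iff_finite, hfix]
    exact hopen
  refine ⟨E, hfd, ?_, ?_⟩
  · rw [IntermediateField.finrank_eq_fixingSubgroup_index, hfix]
    have hinj : Function.Injective (fun q : Gal(P/F) ⧸ N => A q.out) := by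
      intro q q' hqq
      have h1 : A q.out = A q'.out := hqq
      have h2 : q.out⁻¹ * q'.out ∈ N := by
        rw [hNmem]
        have h3 := hl q.out q'.out q.out⁻¹ h1
        rw [inv_mul_cancel] at h3
        exact h3.symm
      have h4 : (q.out : Gal(P/F) ⧸ N) = (q'.out : Gal(P/F) ⧸ N) := QuotientGroup.eq.2 h2
      rwa [QuotientGroup.out_eq', QuotientGroup.out_eq'] at h4
    exact Nat.card_le_card_of_injective _ hinj
  · intro g g' h
    have h1 : g⁻¹ * g' ∈ N := by
      rw [← hfix, IntermediateField.mem_fixingSubgroup_iff]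
      intro x hx
      rw [AlgEquiv.mul_apply, ← h x hx]
      exact g.symm_apply_apply x
    rw [hNmem] at h1
    have h2 := hl _ _ g h1
    rw [mul_inv_cancel_left, mul_one] at h2
    exact h2.symm

end level

section massey

variable {G : Type v} [Group G] [TopologicalSpace G] {p n : ℕ}

/-- the values of the cochains of a defining system -/
def vals (a : Fin (n + 1) → Fin (n + 1) → G → ZMod p) (g : G) : Fin (n + 1) → Fin (n + 1) → ZMod p :=
  fun i j => if i < j ∧ ¬ (i = 0 ∧ j = Fin.last n) then a i j g else 0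

theorem vals_of (a : Fin (n + 1) → Fin (n + 1) → G → ZMod p) (g g' : G) (h : vals a g = vals a g')
    {i j : Fin (n + 1)} (h1 : i < j) (h2 : ¬ (i = 0 ∧ j = Fin.last n)) : a i j g = a i j g' := by
  have h3 := congrFun (congrFun h i) j
  unfold vals at h3
  rw [if_pos ⟨h1, h2⟩, if_pos ⟨h1, h2⟩] at h3
  exact h3

theorem vals_mul {φ : Fin n → G → ZMod p} {a : Fin (n + 1) → Fin (n + 1) → G → ZMod p}
    (ha : IsDefiningSystem φ a) {g g' h h' : G} (hg : vals a g = vals a g') (hh : vals a h = vals a h') :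
    vals a (g * h) = vals a (g' * h') := by
  funext i j
  unfold vals
  by_cases hij : i < j ∧ ¬ (i = 0 ∧ j = Fin.last n)
  · rw [if_pos hij, if_pos hij]
    have h1 := ha.rel i j hij.1 hij.2 g h
    have h2 := ha.rel i j hij.1 hij.2 g' h'
    have h3 : ∑ k ∈ Finset.Ioo i j, a i k g * a k j h = ∑ k ∈ Finset.Ioo i j, a i k g' * a k j h' := by
      refine Finset.sum_congr rfl fun k hk => ?_
      rw [Finset.mem_Ioo] at hk
      rw [vals_of a g g' hg hk.1 (fun h => absurd (h.2 ▸ hk.2) (not_lt.2 (Fin.le_last j))),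
        vals_of a h h' hh hk.2 (fun h => absurd (h.1 ▸ hk.1) (not_lt.2 (Fin.zero_le i)))]
    rw [h3, ← h2, vals_of a g g' hg hij.1 hij.2, vals_of a h h' hh hij.1 hij.2] at h1
    have h4 := congrArg (fun x => a i j g' + a i j h' - x) h1
    simpa using h4
  · rw [if_neg hij, if_neg hij]

theorem corner_left {k j : Fin (n + 1)} (h : k < j) : ¬ ((0 : Fin (n + 1)) = 0 ∧ k = Fin.last n) :=
  fun h' => absurd (h'.2 ▸ h) (not_lt.2 (Fin.le_last j))

theorem corner_right {k j : Fin (n + 1)} (h : j < k) : ¬ (k = 0 ∧ Fin.last n = Fin.last n) :=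
  fun h' => absurd (h'.1 ▸ h) (not_lt.2 (Fin.zero_le j))

theorem corner_mid {i j : Fin (n + 1)} (h : 0 < i) : ¬ (i = 0 ∧ j = Fin.last n) :=
  fun h' => h.ne' h'.1

theorem isLocallyConstant_vals {φ : Fin n → G → ZMod p}
    {a : Fin (n + 1) → Fin (n + 1) → G → ZMod p} (ha : IsDefiningSystem φ a) :
    IsLocallyConstant (vals a) := by
  rw [IsLocallyConstant.iff_eventually_eq]
  intro x
  have h1 : ∀ i j, ∀ᶠ y in nhds x, vals a y i j = vals a x i j := by
    intro i j
    unfold vals
    by_cases hij : i < j ∧ ¬ (i = 0 ∧ j = Fin.last n)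
    · simp only [if_pos hij]
      exact (IsLocallyConstant.iff_eventually_eq _).1 (ha.cont i j hij.1 hij.2) x
    · simp only [if_neg hij]
      exact Filter.Eventually.of_forall fun _ => trivial
  have h2 : ∀ᶠ y in nhds x, ∀ i j, vals a y i j = vals a x i j :=
    Filter.eventually_all.2 fun i => Filter.eventually_all.2 fun j => h1 i j
  filter_upwards [h2] with y hy
  funext i j
  exact hy i j

theorem masseyValue_of_vals (a : Fin (n + 1) → Fin (n + 1) → G → ZMod p) {g g' h h' : G}
    (hg : vals a g = vals a g') (hh : vals a h = vals a h') : masseyValue a g h = masseyValue a g' h' := by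
  unfold masseyValue
  refine Finset.sum_congr rfl fun k hk => ?_
  rw [Finset.mem_Ioo] at hk
  rw [vals_of a g g' hg hk.1 (corner_left hk.2), vals_of a h h' hh hk.2 (corner_right hk.1)]

theorem masseyValue_cocycle {φ : Fin n → G → ZMod p}
    {a : Fin (n + 1) → Fin (n + 1) → G → ZMod p} (ha : IsDefiningSystem φ a) :
    IsCocycle (masseyValue a) := by
  constructor
  · rw [IsLocallyConstant.iff_eventually_eq]
    intro x
    have h1 := (IsLocallyConstant.iff_eventually_eq _).1 (isLocallyConstant_vals ha) x.1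
    have h2 := (IsLocallyConstant.iff_eventually_eq _).1 (isLocallyConstant_vals ha) x.2
    have h3 := h1.prod_nhds h2
    rw [Prod.mk.eta] at h3
    filter_upwards [h3] with y hy
    exact masseyValue_of_vals a hy.1 hy.2
  · intro g h k
    have e1 : ∀ l ∈ Finset.Ioo 0 (Fin.last n), a 0 l (g * h) = a 0 l g + a 0 l h -
        ∑ m ∈ Finset.Ioo 0 l, a 0 m g * a m l h := by
      intro l hl
      rw [Finset.mem_Ioo] at hl
      rw [← ha.rel 0 l hl.1 (corner_left hl.2) g h]
      ring
    have e2 : ∀ l ∈ Finset.Ioo 0 (Fin.last n), a l (Fin.last n) (h * k) = a l (Fin.last n) h +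
        a l (Fin.last n) k - ∑ m ∈ Finset.Ioo l (Fin.last n), a l m h * a m (Fin.last n) k := by
      intro l hl
      rw [Finset.mem_Ioo] at hl
      rw [← ha.rel l (Fin.last n) hl.2 (corner_right hl.1) h k]
      ring
    have e3 : masseyValue a (g * h) k = ∑ l ∈ Finset.Ioo 0 (Fin.last n),
        (a 0 l g + a 0 l h - ∑ m ∈ Finset.Ioo 0 l, a 0 m g * a m l h) * a l (Fin.last n) k :=
      Finset.sum_congr rfl fun l hl => by rw [e1 l hl]
    have e4 : masseyValue a g (h * k) = ∑ l ∈ Finset.Ioo 0 (Fin.last n),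
        a 0 l g * (a l (Fin.last n) h + a l (Fin.last n) k -
          ∑ m ∈ Finset.Ioo l (Fin.last n), a l m h * a m (Fin.last n) k) :=
      Finset.sum_congr rfl fun l hl => by rw [e2 l hl]
    have e5 : ∑ l ∈ Finset.Ioo 0 (Fin.last n), (∑ m ∈ Finset.Ioo 0 l, a 0 m g * a m l h) *
          a l (Fin.last n) k =
        ∑ l ∈ Finset.Ioo 0 (Fin.last n), a 0 l g *
          ∑ m ∈ Finset.Ioo l (Fin.last n), a l m h * a m (Fin.last n) k := by
      simp only [Finset.sum_mul, Finset.mul_sum]
      rw [Finset.sum_comm' (s := Finset.Ioo 0 (Fin.last n)) (t := fun l => Finset.Ioo 0 l)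
        (t' := Finset.Ioo 0 (Fin.last n)) (s' := fun m => Finset.Ioo m (Fin.last n))]
      · exact Finset.sum_congr rfl fun l _ => Finset.sum_congr rfl fun m _ => by ring
      · intro x y
        simp only [Finset.mem_Ioo]
        constructor
        · rintro ⟨⟨h1, h2⟩, h3, h4⟩
          exact ⟨⟨h4, h2⟩, h3, lt_trans h4 h2⟩
        · rintro ⟨⟨h1, h2⟩, h3, h4⟩
          exact ⟨⟨lt_trans h3 h1, h2⟩, h3, h1⟩
    rw [e3, e4]
    simp only [sub_mul, mul_sub, add_mul, mul_add, Finset.sum_sub_distrib, Finset.sum_add_distrib]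
    rw [e5]
    unfold masseyValue
    ring

/-- **The uniform bound for Massey products.** -/
theorem exists_bound_massey {p : ℕ} (hp : p.Prime) (MS : MerkurjevSuslin.{u} p) (n : ℕ) :
    ∃ M : ℕ, ∀ (F P : Type u) [Field F] [Field P] [Algebra F P], (∃ ζ : F, IsPrimitiveRoot ζ p) →
      IsMaxPro p F P → ∀ φ : Fin n → Gal(P/F) → ZMod p, ∀ c : Gal(P/F) → Gal(P/F) → ZMod p,
      RepresentsMassey φ c → SymbolLengthLE c M := by
  have : Fact p.Prime := ⟨hp⟩
  obtain ⟨M, hM⟩ := exists_bound hp MS (Nat.card (Fin (n + 1) → Fin (n + 1) → ZMod p))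
  refine ⟨M, fun F P _ _ _ hζ hP φ c hc => ?_⟩
  obtain ⟨a, b, ha, hb, hcb⟩ := hc
  have := hP.galois
  obtain ⟨E, hE1, hE2, hE3⟩ := exists_level_of_finite (vals a) (isLocallyConstant_vals ha)
    (fun g g' h hg => vals_mul ha hg rfl) (fun g g' h hg => vals_mul ha rfl hg)
  obtain ⟨ψ, ψ', b', h1, h2, h3, h4⟩ := hM F P hζ hP (masseyValue a) (masseyValue_cocycle ha) E hE1 hE2
    (fun g g' h h' hg hh => masseyValue_of_vals a (hE3 g g' hg) (hE3 h h' hh))
  refine ⟨ψ, ψ', fun g => b' g + b g, h1, h2, h3.add hb, fun g h => ?_⟩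
  rw [hcb, h4]
  ring

end massey

end Pool.Agent.H87.MS
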