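import Pool.Agent.H87.MS.Pro

/-!
# The ultraproduct of maximal pro-`p` extensions: embedding of finite Galois `p`-extensions
-/

set_option autoImplicit false

universe u

open Filter Polynomial

namespace Pool.Agent.H87.MS

section lifting

variable {U : Ultrafilter ℕ} {K L : ℕ → Type u} [∀ i, Field (K i)] [∀ i, Field (L i)]
  [∀ i, Algebra (K i) (L i)]

attribute [local instance] alg

/-- The `i`-th component of a polynomial over the product ring. -/
noncomputable def comp (Q : (∀ i, K i)[X]) (i : ℕ) : (K i)[X] := Q.map (Pi.evalRingHom K i)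

theorem comp_eventually_zero {Q : (∀ i, K i)[X]} (h : Q.map (mk U K) = 0) :
    ∀ᶠ i in (U : Filter ℕ), comp Q i = 0 := by
  have h1 : ∀ n, ∀ᶠ i in (U : Filter ℕ), Q.coeff n i = 0 := by
    intro n
    have h2 : mk U K (Q.coeff n) = mk U K 0 := by
      rw [← coeff_map, h, coeff_zero, map_zero]
    exact mk_eq.1 h2
  have h3 : ∀ᶠ i in (U : Filter ℕ), ∀ n ∈ Q.support, Q.coeff n i = 0 :=
    (Finset.eventually_all _).2 fun n _ => h1 n
  filter_upwards [h3] with i hi
  ext n
  unfold comp
  rw [coeff_map, coeff_zero]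
  by_cases hn : n ∈ Q.support
  · exact hi n hn
  · rw [notMem_support_iff.1 hn, map_zero]

theorem comp_eq_eventually {Q Q' : (∀ i, K i)[X]} (h : Q.map (mk U K) = Q'.map (mk U K)) :
    ∀ᶠ i in (U : Filter ℕ), comp Q i = comp Q' i := by
  have h1 : (Q - Q').map (mk U K) = 0 := by rw [Polynomial.map_sub, h, sub_self]
  filter_upwards [comp_eventually_zero h1] with i hi
  unfold comp at *
  rw [Polynomial.map_sub] at hi
  exact sub_eq_zero.1 hi

theorem comp_separable {Q : (∀ i, K i)[X]} (h : (Q.map (mk U K)).Separable) :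
    ∀ᶠ i in (U : Filter ℕ), (comp Q i).Separable := by
  obtain ⟨a, b, h1⟩ := h
  obtain ⟨A, rfl⟩ := Polynomial.map_surjective (mk U K) mk_surjective a
  obtain ⟨B, rfl⟩ := Polynomial.map_surjective (mk U K) mk_surjective b
  have h2 : (A * Q + B * derivative Q).map (mk U K) = (1 : (∀ i, K i)[X]).map (mk U K) := by
    rw [Polynomial.map_add, Polynomial.map_mul, Polynomial.map_mul, ← derivative_map, h1,
      Polynomial.map_one]
  filter_upwards [comp_eq_eventually h2] with i hi
  refine ⟨comp A i, comp B i, ?_⟩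
  unfold comp at *
  rw [derivative_map, ← Polynomial.map_mul, ← Polynomial.map_mul, ← Polynomial.map_add, hi,
    Polynomial.map_one]

/-- the map of product rings -/
noncomputable def prodMap : (∀ i, K i) →+* (∀ i, L i) :=
  RingHom.pi fun i => (algebraMap (K i) (L i)).comp (Pi.evalRingHom K i)

theorem mk_prodMap : (mk U L).comp (prodMap (K := K) (L := L)) =
    (algebraMap (Ult U K) (Ult U L)).comp (mk U K) := rfl

theorem aeval_mk (Q : (∀ i, K i)[X]) (t : ∀ i, L i) :
    aeval (mk U L t) (Q.map (mk U K)) = mk U L (fun i => aeval (t i) (comp Q i)) := by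
  have h1 : (fun i => aeval (t i) (comp Q i)) = eval₂ (prodMap (K := K) (L := L)) t Q := by
    funext i
    have h2 := Polynomial.hom_eval₂ Q (prodMap (K := K) (L := L)) (Pi.evalRingHom L i) t
    unfold comp
    rw [aeval_def, eval₂_map]
    exact h2.symm
  rw [h1, Polynomial.hom_eval₂, mk_prodMap, aeval_def, eval₂_map]

theorem map_eq_prod {d : ℕ} (Q : (∀ i, K i)[X]) (r : ∀ i, Fin d → L i)
    (h : ∀ i, (comp Q i).map (algebraMap (K i) (L i)) = ∏ j, (X - C (r i j))) :
    (Q.map (mk U K)).map (algebraMap (Ult U K) (Ult U L)) =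
      ∏ j, (X - C (mk U L (fun i => r i j))) := by
  have h1 : Q.map (prodMap (K := K) (L := L)) = ∏ j, (X - C (fun i => r i j)) := by
    refine Polynomial.ext fun n => funext fun i => ?_
    have h2 := congrArg (fun p => p.coeff n) (h i)
    have h3 : (∏ j, (X - C (fun i => r i j)) : (∀ i, L i)[X]).map (Pi.evalRingHom L i) =
        ∏ j, (X - C (r i j)) := by
      rw [Polynomial.map_prod]
      refine Finset.prod_congr rfl fun j _ => ?_
      rw [Polynomial.map_sub, map_X, map_C]
      rfl
    rw [← h3] at h2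
    simp only [coeff_map] at h2
    rw [coeff_map]
    unfold comp at h2
    rw [coeff_map] at h2
    exact h2
  rw [Polynomial.map_map, ← mk_prodMap, ← Polynomial.map_map, h1, Polynomial.map_prod]
  refine Finset.prod_congr rfl fun j _ => ?_
  rw [Polynomial.map_sub, map_X, map_C]

end lifting

theorem exists_fin {K M : Type u} [CommMonoid M] (l : List K) (d : ℕ) (h : l.length = d) (g : K → M) :
    ∃ r : Fin d → K, (l.map g).prod = ∏ j, g (r j) := by
  subst h
  refine ⟨l.get, ?_⟩
  rw [← List.prod_ofFn]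
  congr 1
  conv_lhs => rw [← List.ofFn_get l]
  rw [List.map_ofFn]
  rfl

theorem exists_roots {K : Type u} [Field K] {f : K[X]} (hf : f.Splits) (hm : f.Monic) {d : ℕ}
    (hd : f.natDegree = d) : ∃ r : Fin d → K, f = ∏ j, (X - C (r j)) := by
  have h1 := hf.eq_prod_roots_of_monic hm
  have h2 := hf.natDegree_eq_card_roots
  obtain ⟨l, hl⟩ := Quot.exists_rep f.roots
  have hl' : (l : Multiset K) = f.roots := hl
  rw [← hl', Multiset.coe_card, hd] at h2
  obtain ⟨r, hr⟩ := exists_fin l d h2.symm (fun x => (X - C x : K[X]))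
  refine ⟨r, ?_⟩
  rw [h1, ← hl', Multiset.map_coe, Multiset.prod_coe, hr]

end Pool.Agent.H87.MS
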