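import Pool.Agent.H87.MS.Ult
import Pool.Agent.H87.MS.Alg
import Pool.Agent.H87.MS.Defs

/-!
# The ultraproduct of maximal pro-`p` extensions: finite Galois subextensions
-/

set_option autoImplicit false

universe u

open Filter Polynomial

namespace Pool.Agent.H87.MS

theorem mem_of_coprime {G : Type u} [Group G] (S : Subgroup G) {g : G} {a b : ℕ} (h : Nat.Coprime a b)
    (ha : g ^ a ∈ S) (hb : g ^ b ∈ S) : g ∈ S := by
  obtain ⟨u, v, h1⟩ := Nat.isCoprime_iff_coprime.2 h
  have h2 : g = (g ^ a) ^ u * (g ^ b) ^ v := by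
    rw [← zpow_natCast, ← zpow_natCast, ← zpow_mul, ← zpow_mul, ← zpow_add, mul_comm (a : ℤ),
      mul_comm (b : ℤ), h1, zpow_one]
  rw [h2]
  exact S.mul_mem (S.zpow_mem ha u) (S.zpow_mem hb v)

theorem isPGroup_of_coprime {G : Type u} [Group G] [Finite G] {p : ℕ} (hp : p.Prime)
    (h : ∀ τ : G, ∀ m : ℕ, Nat.Coprime m p → τ ^ m = 1 → τ = 1) : IsPGroup p G := by
  intro σ
  have hn : orderOf σ ≠ 0 := (orderOf_pos σ).ne'
  obtain ⟨a, m, hm, h1⟩ := Nat.exists_eq_pow_mul_and_not_dvd hn p hp.ne_one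
  refine ⟨a, h (σ ^ p ^ a) m ?_ ?_⟩
  · exact ((Nat.Prime.coprime_iff_not_dvd hp).2 hm).symm
  · rw [← pow_mul, ← h1, pow_orderOf_eq_one]

/-- In a maximal pro-`p` extension some power `g ^ p ^ k` fixes a given element. -/
theorem IsMaxPro.exists_pow {p : ℕ} {F P : Type u} [Field F] [Field P] [Algebra F P]
    (h : IsMaxPro p F P) (g : Gal(P/F)) (t : P) : ∃ k : ℕ, (g ^ p ^ k) t = t := by
  have := h.galois
  have hint : IsIntegral F t := Algebra.IsIntegral.isIntegral t
  have hfd : FiniteDimensional F (IntermediateField.adjoin F {t}) :=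
    IntermediateField.adjoin.finiteDimensional hint
  let N : IntermediateField F P := IntermediateField.normalClosure F (IntermediateField.adjoin F {t}) P
  have hN : FiniteDimensional F N := normalClosure.is_finiteDimensional F _ P
  have hG : IsGalois F N := IsGalois.normalClosure F _ P
  have ht : t ∈ N := IntermediateField.le_normalClosure _ (IntermediateField.mem_adjoin_simple_self F t)
  obtain ⟨k, hk⟩ := h.pro N hN hG (AlgEquiv.restrictNormalHom N g)
  refine ⟨k, ?_⟩
  rw [← map_pow] at hk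
  have h4 := AlgEquiv.restrictNormal_commutes (g ^ p ^ k) N ⟨t, ht⟩
  have h5 : AlgEquiv.restrictNormal (g ^ p ^ k) N = 1 := hk
  rw [h5] at h4
  exact h4.symm

section

variable (U : Ultrafilter ℕ) (F P : ℕ → Type u) [∀ i, Field (F i)] [∀ i, Field (P i)]
  [∀ i, Algebra (F i) (P i)]

attribute [local instance] alg

/-- The relative algebraic closure of the ultraproduct of the `F i` in the ultraproduct of the `P i`. -/
noncomputable abbrev PP : IntermediateField (Ult U F) (Ult U P) := algebraicClosure (Ult U F) (Ult U P)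

theorem fixed_range [∀ i, IsGalois (F i) (P i)] (x : Ult U P) (hx : ∀ g, actHom U F P g x = x) :
    x ∈ Set.range (algebraMap (Ult U F) (Ult U P)) :=
  mem_range_of_fixed U F P x hx

theorem isGalois_PP [∀ i, IsGalois (F i) (P i)] : IsGalois (Ult U F) (PP U F P) :=
  isGalois_algebraicClosure (actHom U F P) (fixed_range U F P)

theorem pro_PP {p : ℕ} (hp : p.Prime) (hP : ∀ i, IsMaxPro p (F i) (P i))
    (E : IntermediateField (Ult U F) (PP U F P)) (hE : FiniteDimensional (Ult U F) E)
    (hE2 : IsGalois (Ult U F) E) : IsPGroup p Gal(E/(Ult U F)) := by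
  have hg : ∀ i, IsGalois (F i) (P i) := fun i => (hP i).galois
  have := isGalois_PP U F P
  refine isPGroup_of_coprime hp fun τ m hm hτ => ?_
  let pb := Field.powerBasisOfFiniteOfSeparable (Ult U F) E
  obtain ⟨t, ht⟩ := mk_surjective (U := U) (K := P) ((pb.gen : PP U F P) : Ult U P)
  obtain ⟨σ, hσ⟩ := AlgEquiv.restrictNormalHom_surjective (F := Ult U F) (K₁ := E) (E := PP U F P) τ
  obtain ⟨g, hgσ⟩ := restr_surj (actHom U F P) (fixed_range U F P) E σ
  have h0 : AlgEquiv.restrictNormalHom E (restr (actHom U F P) g) = τ := by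
    rw [← hσ]
    ext x
    have h4 := AlgEquiv.restrictNormal_commutes (restr (actHom U F P) g) E x
    have h5 := AlgEquiv.restrictNormal_commutes σ E x
    have h6 := hgσ x x.2
    exact congrArg Subtype.val (h4.trans (h6.trans h5.symm))
  have h1 : ∀ k : ℕ, (((τ ^ k) pb.gen : PP U F P) : Ult U P) = mk U P (fun i => ((g i) ^ k) (t i)) := by
    intro k
    have h2 : AlgEquiv.restrictNormalHom E (restr (actHom U F P) (g ^ k)) = τ ^ k := by
      rw [map_pow, map_pow, h0]
    have h3 := AlgEquiv.restrictNormal_commutes (restr (actHom U F P) (g ^ k)) E pb.gen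
    have h4 : AlgEquiv.restrictNormal (restr (actHom U F P) (g ^ k)) E = τ ^ k := h2
    rw [h4] at h3
    have h5 : (((τ ^ k) pb.gen : E) : PP U F P) = restr (actHom U F P) (g ^ k) (pb.gen : PP U F P) := h3
    rw [h5, restr_apply, ← ht]
    rfl
  have h2 : ∀ᶠ i in (U : Filter ℕ), ((g i) ^ m) (t i) = t i := by
    rw [← mk_eq, ← h1 m, hτ, ht]
    rfl
  have h3 : ∀ᶠ i in (U : Filter ℕ), (g i) (t i) = t i := by
    filter_upwards [h2] with i hi
    obtain ⟨k, hk⟩ := (hP i).exists_pow (g i) (t i)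
    exact mem_of_coprime (MulAction.stabilizer Gal(P i/F i) (t i)) (Nat.Coprime.pow_right k hm) hi hk
  have h4 : τ pb.gen = pb.gen := by
    have h5 := h1 1
    rw [pow_one] at h5
    refine Subtype.ext (Subtype.ext ?_)
    rw [h5, ← ht, mk_eq]
    filter_upwards [h3] with i hi
    rw [pow_one, hi]
  have h5 : (τ : E →ₐ[Ult U F] E) = ((1 : Gal(E/(Ult U F))) : E →ₐ[Ult U F] E) := by
    refine pb.algHom_ext ?_
    exact h4
  ext x
  exact congrArg (fun f : E →ₐ[Ult U F] E => ((f x : E) : Ult U P)) h5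

end

end Pool.Agent.H87.MS
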