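import Pool.Agent.H87.MS.Massey

/-!
# The supremum of the symbol lengths of the elements of Massey products is attained
-/

set_option autoImplicit false
set_option linter.unusedSectionVars false

universe u v

open Filter Polynomial

namespace Pool.Agent.H87.MS

section

variable (U : Ultrafilter ℕ) (F P : ℕ → Type u) [∀ i, Field (F i)] [∀ i, Field (P i)]
  [∀ i, Algebra (F i) (P i)]

attribute [local instance] alg

/-- Functions of bounded level on the Galois groups have a limit on the Galois group of the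
ultraproduct. -/
theorem exists_external {T : Type} [Finite T] {B : ℕ} (hg : ∀ i, IsGalois (F i) (P i))
    (A : ∀ i, Gal(P i/F i) → T) (E : ∀ i, IntermediateField (F i) (P i))
    (hE : ∀ i, FiniteDimensional (F i) (E i)) (hB : ∀ i, Module.finrank (F i) (E i) ≤ B)
    (hf : ∀ i, ∀ g g' : Gal(P i/F i), (∀ x ∈ E i, g x = g' x) → A i g = A i g')
    [IsGalois (Ult U F) (PP U F P)] :
    ∃ A' : Gal((PP U F P)/(Ult U F)) → T, IsLocallyConstant A' ∧
      ∀ g : ∀ i, Gal(P i/F i), ∀ᶠ i in (U : Filter ℕ), A i (g i) = A' (proj U F P g) := by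
  classical
  let pb := fun i => Field.powerBasisOfFiniteOfSeparable (F i) (E i)
  let θ : ∀ i, P i := fun i => ((pb i).gen : P i)
  have hagree : ∀ i, ∀ g g' : Gal(P i/F i), g (θ i) = g' (θ i) → ∀ x ∈ E i, g x = g' x := by
    intro i g g' h x hx
    have h1 : (g : P i →ₐ[F i] P i).comp (E i).val = (g' : P i →ₐ[F i] P i).comp (E i).val :=
      (pb i).algHom_ext h
    exact congrArg (fun f : E i →ₐ[F i] P i => f ⟨x, hx⟩) h1
  have hint : ∀ i, IsIntegral (F i) (pb i).gen := fun i => Algebra.IsIntegral.isIntegral _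
  have hmem : mk U P θ ∈ PP U F P := by
    refine mem_PP_of_bounded U F P (B := B) θ (fun i => minpoly (F i) (pb i).gen)
      (fun i => minpoly.monic (hint i)) (fun i => ?_) (fun i => ?_)
    · show (minpoly (F i) (pb i).gen).natDegree ≤ B
      rw [(pb i).natDegree_minpoly, ← (pb i).finrank]
      exact hB i
    · show aeval ((E i).val (pb i).gen) (minpoly (F i) (pb i).gen) = 0
      rw [aeval_algHom_apply, minpoly.aeval, map_zero]
  let θ' : PP U F P := ⟨mk U P θ, hmem⟩
  let E' : IntermediateField (Ult U F) (PP U F P) :=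
    IntermediateField.normalClosure (Ult U F) (IntermediateField.adjoin (Ult U F) {θ'}) (PP U F P)
  have hfd1 : FiniteDimensional (Ult U F) (IntermediateField.adjoin (Ult U F) {θ'}) :=
    IntermediateField.adjoin.finiteDimensional (Algebra.IsIntegral.isIntegral θ')
  have hfd : FiniteDimensional (Ult U F) E' := normalClosure.is_finiteDimensional _ _ _
  have hno : Normal (Ult U F) E' := normalClosure.normal _ _ _
  have hθE : θ' ∈ E' := IntermediateField.le_normalClosure _ (IntermediateField.mem_adjoin_simple_self _ θ')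
  choose rep hrep using fun σ => restr_surj (actHom U F P) (fixed_range U F P) E' σ
  have hrep' : ∀ σ, ∀ y ∈ E', proj U F P (rep σ) y = σ y := hrep
  choose A' hA' using fun σ : Gal((PP U F P)/(Ult U F)) =>
    exists_ultralimit (U := U) (fun i => A i (rep σ i))
  have hkey : ∀ (g : ∀ i, Gal(P i/F i)) (σ : Gal((PP U F P)/(Ult U F))),
      proj U F P g θ' = σ θ' → ∀ᶠ i in (U : Filter ℕ), A i (g i) = A' σ := by
    intro g σ h
    have h1 : proj U F P (rep σ) θ' = proj U F P g θ' := (hrep' σ θ' hθE).trans h.symm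
    have h2 : ((proj U F P (rep σ) θ' : PP U F P) : Ult U P) = ((proj U F P g θ' : PP U F P) : Ult U P) := by
      rw [h1]
    rw [proj_mk U F P _ θ' θ rfl, proj_mk U F P _ θ' θ rfl, mk_eq] at h2
    filter_upwards [h2, hA' σ] with i hi hi2
    rw [← hi2]
    exact (hf i _ _ (hagree i _ _ hi)).symm
  refine ⟨A', ?_, fun g => hkey g _ rfl⟩
  refine isLocallyConstant_of_agree E' A' fun σ τ h => ?_
  have h3 := hkey (rep τ) τ (hrep' τ θ' hθE)
  have h4 := hkey (rep τ) σ ((hrep' τ θ' hθE).trans (h θ' hθE))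
  obtain ⟨i, hi1, hi2⟩ := (h3.and h4).exists
  exact hi1.symm.trans hi2

theorem exists_lift [∀ i, IsGalois (F i) (P i)] [IsGalois (Ult U F) (PP U F P)] {T : Type}
    (A' : Gal((PP U F P)/(Ult U F)) → T) (hA' : IsLocallyConstant A')
    (σ τ : Gal((PP U F P)/(Ult U F))) : ∃ g h : ∀ i, Gal(P i/F i),
      A' σ = A' (proj U F P g) ∧ A' τ = A' (proj U F P h) ∧ A' (σ * τ) = A' (proj U F P (g * h)) := by
  obtain ⟨E, hE1, hE2, hE⟩ := exists_level A' hA'
  obtain ⟨g, hg⟩ := restr_surj (actHom U F P) (fixed_range U F P) E σ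
  obtain ⟨h, hh⟩ := restr_surj (actHom U F P) (fixed_range U F P) E τ
  have hg' : ∀ y ∈ E, proj U F P g y = σ y := hg
  have hh' : ∀ y ∈ E, proj U F P h y = τ y := hh
  refine ⟨g, h, hE _ _ fun x hx => (hg' x hx).symm, hE _ _ fun x hx => (hh' x hx).symm,
    hE _ _ fun x hx => ?_⟩
  have h2 : τ x ∈ E := by
    have h1 := AlgEquiv.restrictNormal_commutes τ E ⟨x, hx⟩
    have h2 : τ x = ((AlgEquiv.restrictNormal τ E ⟨x, hx⟩ : E) : PP U F P) := h1.symm
    rw [h2]
    exact Subtype.mem _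
  rw [map_mul, AlgEquiv.mul_apply, AlgEquiv.mul_apply, hh' x hx, hg' _ h2]

/-- The limit of defining systems. -/
theorem massey_external {p n : ℕ} (hp : p.Prime) (hP : ∀ i, IsMaxPro p (F i) (P i))
    (φ : ∀ i, Fin n → Gal(P i/F i) → ZMod p)
    (a : ∀ i, Fin (n + 1) → Fin (n + 1) → Gal(P i/F i) → ZMod p)
    (ha : ∀ i, IsDefiningSystem (φ i) (a i)) :
    ∃ (φ' : Fin n → Gal((PP U F P)/(Ult U F)) → ZMod p)
      (a' : Fin (n + 1) → Fin (n + 1) → Gal((PP U F P)/(Ult U F)) → ZMod p),
      IsDefiningSystem φ' a' ∧ ∀ m, SymbolLengthLE (masseyValue a') m →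
        ∀ᶠ i in (U : Filter ℕ), SymbolLengthLE (masseyValue (a i)) m := by
  classical
  have hpf : Fact p.Prime := ⟨hp⟩
  have hg : ∀ i, IsGalois (F i) (P i) := fun i => (hP i).galois
  have hgal := isGalois_PP U F P
  have hlev : ∀ i, ∃ E : IntermediateField (F i) (P i), FiniteDimensional (F i) E ∧
      Module.finrank (F i) E ≤ Nat.card (Fin (n + 1) → Fin (n + 1) → ZMod p) ∧
      ∀ g g' : Gal(P i/F i), (∀ x ∈ E, g x = g' x) → vals (a i) g = vals (a i) g' := fun i =>
    exists_level_of_finite (vals (a i)) (isLocallyConstant_vals (ha i))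
      (fun g g' h hg => vals_mul (ha i) hg rfl) (fun g g' h hg => vals_mul (ha i) rfl hg)
  choose E hE1 hE2 hE3 using hlev
  obtain ⟨A, hA1, hA2⟩ := exists_external U F P hg (fun i => vals (a i)) E hE1 hE2 hE3
  refine ⟨fun i σ => A σ i.castSucc i.succ, fun i j σ => A σ i j, ?_, ?_⟩
  · refine ⟨fun i j _ _ => ?_, fun _ => rfl, fun i j h1 h2 σ τ => ?_⟩
    · exact hA1.comp fun t => t i j
    · obtain ⟨g, h, e1, e2, e3⟩ := exists_lift U F P A hA1 σ τ
      obtain ⟨k, ⟨hk1, hk2⟩, hk3⟩ := (((hA2 g).and (hA2 h)).and (hA2 (g * h))).exists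
      rw [← e1] at hk1
      rw [← e2] at hk2
      rw [← e3] at hk3
      show A σ i j + A τ i j - A (σ * τ) i j = ∑ l ∈ Finset.Ioo i j, A σ i l * A τ l j
      rw [← hk1, ← hk2, ← hk3]
      have h3 := (ha k).rel i j h1 h2 (g k) (h k)
      have h4 : ∀ x : Gal(P k/F k), vals (a k) x i j = a k i j x := fun x => if_pos ⟨h1, h2⟩
      rw [h4, h4, h4]
      have h5 : (g * h) k = g k * h k := rfl
      rw [h5, h3]
      refine Finset.sum_congr rfl fun l hl => ?_
      rw [Finset.mem_Ioo] at hl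
      have h6 : ∀ x : Gal(P k/F k), vals (a k) x i l = a k i l x := fun x => if_pos ⟨hl.1,
        fun h => absurd (h.2 ▸ hl.2) (not_lt.2 (Fin.le_last j))⟩
      have h7 : ∀ x : Gal(P k/F k), vals (a k) x l j = a k l j x := fun x => if_pos ⟨hl.2,
        fun h => absurd (h.1 ▸ hl.1) (not_lt.2 (Fin.zero_le i))⟩
      rw [h6, h7]
  · rintro m ⟨ψ, ψ', b, hψ, hψ', hb, hid⟩
    have hkey : ∀ (g h : ∀ i, Gal(P i/F i)), ∀ᶠ i in (U : Filter ℕ),
        masseyValue (a i) (g i) (h i) =
          masseyValue (fun i j σ => A σ i j) (proj U F P g) (proj U F P h) := by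
      intro g h
      filter_upwards [hA2 g, hA2 h] with k hk1 hk2
      unfold masseyValue
      refine Finset.sum_congr rfl fun l hl => ?_
      rw [Finset.mem_Ioo] at hl
      show a k 0 l (g k) * a k l (Fin.last n) (h k) = A (proj U F P g) 0 l * A (proj U F P h) l (Fin.last n)
      rw [← hk1, ← hk2]
      have h6 : vals (a k) (g k) 0 l = a k 0 l (g k) := if_pos ⟨hl.1, corner_left hl.2⟩
      have h7 : vals (a k) (h k) l (Fin.last n) = a k l (Fin.last n) (h k) :=
        if_pos ⟨hl.2, corner_right hl.1⟩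
      rw [h6, h7]
    choose ψi hψi1 hψi2 using fun k => exists_internal U F P (ψ k) (hψ k).1
    choose ψi' hψi1' hψi2' using fun k => exists_internal U F P (ψ' k) (hψ' k).1
    obtain ⟨bi, hbi1, hbi2⟩ := exists_internal U F P b hb
    have H1 : ∀ᶠ i in (U : Filter ℕ), ∀ k, ∀ g h, ψi k i (g * h) = ψi k i g + ψi k i h := by
      refine Filter.eventually_all.2 fun k => ?_
      refine los (fun i g h => ψi k i (g * h) = ψi k i g + ψi k i h) fun g h => ?_
      filter_upwards [hψi2 k (g * h), hψi2 k g, hψi2 k h] with i h1 h2 h3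
      have h4 : ψi k i (g i * h i) = ψ k (proj U F P (g * h)) := h1
      rw [h4, h2, h3, map_mul, (hψ k).2]
    have H2 : ∀ᶠ i in (U : Filter ℕ), ∀ k, ∀ g h, ψi' k i (g * h) = ψi' k i g + ψi' k i h := by
      refine Filter.eventually_all.2 fun k => ?_
      refine los (fun i g h => ψi' k i (g * h) = ψi' k i g + ψi' k i h) fun g h => ?_
      filter_upwards [hψi2' k (g * h), hψi2' k g, hψi2' k h] with i h1 h2 h3
      have h4 : ψi' k i (g i * h i) = ψ' k (proj U F P (g * h)) := h1
      rw [h4, h2, h3, map_mul, (hψ' k).2]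
    have H3 : ∀ᶠ i in (U : Filter ℕ), ∀ g h, masseyValue (a i) g h = ∑ k, ψi k i g * ψi' k i h +
        (bi i g + bi i h - bi i (g * h)) := by
      refine los (fun i g h => masseyValue (a i) g h = ∑ k, ψi k i g * ψi' k i h +
        (bi i g + bi i h - bi i (g * h))) fun g h => ?_
      have h1 := hkey g h
      have h2 : ∀ᶠ i in (U : Filter ℕ), ∀ k, ψi k i (g i) = ψ k (proj U F P g) :=
        Filter.eventually_all.2 fun k => hψi2 k g
      have h3 : ∀ᶠ i in (U : Filter ℕ), ∀ k, ψi' k i (h i) = ψ' k (proj U F P h) :=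
        Filter.eventually_all.2 fun k => hψi2' k h
      filter_upwards [h1, h2, h3, hbi2 g, hbi2 h, hbi2 (g * h)] with i hi1 hi2 hi3 hi4 hi5 hi6
      have h7 : bi i (g i * h i) = b (proj U F P (g * h)) := hi6
      rw [hi1, h7, hi4, hi5, map_mul, hid]
      congr 1
      exact Finset.sum_congr rfl fun k _ => by rw [hi2 k, hi3 k]
    filter_upwards [H1, H2, H3] with i h1 h2 h3
    exact ⟨fun k => ψi k i, fun k => ψi' k i, bi i, fun k => ⟨hψi1 k i, h1 k⟩,
      fun k => ⟨hψi1' k i, h2 k⟩, hbi1 i, h3⟩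

end

/-! ### an example -/

theorem isMaxPro_self (p : ℕ) (K : Type u) [Field K] [IsAlgClosed K] : IsMaxPro p K K := by
  refine ⟨inferInstance, fun E _ _ => ?_, fun E _ _ h1 _ _ => ⟨IsAlgClosed.lift⟩⟩
  have : Subsingleton Gal(E/K) := by
    refine ⟨fun σ τ => ?_⟩
    ext x
    have h1 : ∃ y : K, algebraMap K E y = x := ⟨(x : K), Subtype.ext rfl⟩
    obtain ⟨y, rfl⟩ := h1
    rw [AlgEquiv.commutes, AlgEquiv.commutes]
  exact IsPGroup.of_card (n := 0) (by rw [Nat.card_of_subsingleton (1 : Gal(E/K)), pow_zero])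

end Pool.Agent.H87.MS
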