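import Mathlib

/-!
# Ultraproducts of fields as quotients of products by maximal ideals
-/

set_option autoImplicit false

universe u

open Filter

namespace Pool.Agent.H87.MS

section basics

variable (U : Ultrafilter ℕ) (K : ℕ → Type u) [∀ i, Field (K i)]

/-- The ideal of the sequences which vanish `U`-almost everywhere. -/
def ideal : Ideal (∀ i, K i) where
  carrier := {x | ∀ᶠ i in (U : Filter ℕ), x i = 0}
  add_mem' := by
    intro a b ha hb
    filter_upwards [ha, hb] with i h1 h2
    simp [h1, h2]
  zero_mem' := by simp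
  smul_mem' := by
    intro c x hx
    filter_upwards [hx] with i h
    simp [h]

theorem mem_ideal {x : ∀ i, K i} : x ∈ ideal U K ↔ ∀ᶠ i in (U : Filter ℕ), x i = 0 := Iff.rfl

instance isMaximal_ideal : (ideal U K).IsMaximal := by
  classical
  rw [Ideal.isMaximal_iff]
  constructor
  · intro h
    rw [mem_ideal] at h
    obtain ⟨i, hi⟩ := h.exists
    exact one_ne_zero hi
  · intro J x hJ hx hxJ
    rw [mem_ideal, ← Ultrafilter.eventually_not] at hx
    have h1 : x * (fun i => (x i)⁻¹) ∈ J := J.mul_mem_right _ hxJ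
    have h2 : (1 : ∀ i, K i) - x * (fun i => (x i)⁻¹) ∈ ideal U K := by
      rw [mem_ideal]
      filter_upwards [hx] with i hi
      simp only [Pi.sub_apply, Pi.one_apply, Pi.mul_apply]
      rw [mul_inv_cancel₀ hi, sub_self]
    have h3 := J.add_mem (hJ h2) h1
    rwa [sub_add_cancel] at h3

/-- The ultraproduct of the fields `K i`. -/
def Ult : Type u := (∀ i, K i) ⧸ ideal U K

noncomputable instance : Field (Ult U K) := Ideal.Quotient.field _

/-- The class of a sequence. -/
noncomputable def mk : (∀ i, K i) →+* Ult U K := Ideal.Quotient.mk (ideal U K)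

variable {U K}

theorem mk_eq {x y : ∀ i, K i} : mk U K x = mk U K y ↔ ∀ᶠ i in (U : Filter ℕ), x i = y i := by
  have h : mk U K x = mk U K y ↔ x - y ∈ ideal U K := Ideal.Quotient.eq
  rw [h, mem_ideal]
  simp only [Pi.sub_apply, sub_eq_zero]

theorem mk_surjective : Function.Surjective (mk U K) := Ideal.Quotient.mk_surjective

end basics

section maps

variable {U : Ultrafilter ℕ} {K L : ℕ → Type u} [∀ i, Field (K i)] [∀ i, Field (L i)]

/-- The ring homomorphism of ultraproducts defined by ring homomorphisms. -/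
noncomputable def map (f : ∀ i, K i →+* L i) : Ult U K →+* Ult U L :=
  Ideal.Quotient.lift (ideal U K)
    ((mk U L).comp (RingHom.pi fun i => (f i).comp (Pi.evalRingHom K i))) (by
    intro a ha
    rw [mem_ideal] at ha
    have h0 : ((mk U L).comp (RingHom.pi fun i => (f i).comp (Pi.evalRingHom K i))) a =
      mk U L (fun i => f i (a i)) := rfl
    rw [h0, ← map_zero (mk U L), mk_eq]
    filter_upwards [ha] with i hi
    rw [hi, map_zero]
    rfl)

theorem map_mk (f : ∀ i, K i →+* L i) (x : ∀ i, K i) :
    map f (mk U K x) = mk U L (fun i => f i (x i)) := rfl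

end maps

section algebra

variable (U : Ultrafilter ℕ) (K L : ℕ → Type u) [∀ i, Field (K i)] [∀ i, Field (L i)]
  [∀ i, Algebra (K i) (L i)]

/-- The ultraproduct of field extensions. -/
@[reducible] noncomputable def alg : Algebra (Ult U K) (Ult U L) :=
  (map fun i => algebraMap (K i) (L i)).toAlgebra

attribute [local instance] alg

theorem algebraMap_mk (x : ∀ i, K i) :
    algebraMap (Ult U K) (Ult U L) (mk U K x) = mk U L (fun i => algebraMap (K i) (L i) (x i)) := rfl

/-- The action of a sequence of automorphisms. -/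
noncomputable def act (g : ∀ i, L i ≃ₐ[K i] L i) : Ult U L ≃ₐ[Ult U K] Ult U L :=
  AlgEquiv.ofRingEquiv (f := RingEquiv.ofRingHom (map fun i => ((g i : L i →ₐ[K i] L i) : L i →+* L i))
    (map fun i => (((g i).symm : L i →ₐ[K i] L i) : L i →+* L i))
    (by
      ext x
      obtain ⟨x, rfl⟩ := mk_surjective x
      simp [map_mk])
    (by
      ext x
      obtain ⟨x, rfl⟩ := mk_surjective x
      simp [map_mk])) (by
    intro x
    obtain ⟨x, rfl⟩ := mk_surjective x
    rw [algebraMap_mk]
    simp [map_mk])

theorem act_mk (g : ∀ i, L i ≃ₐ[K i] L i) (x : ∀ i, L i) :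
    act U K L g (mk U L x) = mk U L (fun i => g i (x i)) := rfl

theorem act_mul (g h : ∀ i, L i ≃ₐ[K i] L i) : act U K L (g * h) = act U K L g * act U K L h := by
  ext x
  obtain ⟨x, rfl⟩ := mk_surjective x
  rfl

theorem act_one : act U K L 1 = 1 := by
  ext x
  obtain ⟨x, rfl⟩ := mk_surjective x
  rfl

/-- The action as a homomorphism. -/
noncomputable def actHom : (∀ i, L i ≃ₐ[K i] L i) →* (Ult U L ≃ₐ[Ult U K] Ult U L) where
  toFun := act U K L
  map_one' := act_one U K L
  map_mul' := act_mul U K L

/-- The elements which are fixed by all the automorphisms are in the base field. -/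
theorem mem_range_of_fixed [∀ i, IsGalois (K i) (L i)] (x : Ult U L)
    (hx : ∀ g : ∀ i, L i ≃ₐ[K i] L i, act U K L g x = x) :
    x ∈ Set.range (algebraMap (Ult U K) (Ult U L)) := by
  classical
  obtain ⟨x, rfl⟩ := mk_surjective x
  have h1 : ∀ᶠ i in (U : Filter ℕ), x i ∈ Set.range (algebraMap (K i) (L i)) := by
    by_contra h
    rw [← Ultrafilter.eventually_not] at h
    have h2 : ∀ i, ∃ g : L i ≃ₐ[K i] L i, x i ∉ Set.range (algebraMap (K i) (L i)) → g (x i) ≠ x i := by
      intro i
      by_cases hi : x i ∈ Set.range (algebraMap (K i) (L i))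
      · exact ⟨1, fun h => absurd hi h⟩
      · rw [InfiniteGalois.mem_range_algebraMap_iff_fixed] at hi
        push Not at hi
        obtain ⟨g, hg⟩ := hi
        exact ⟨g, fun _ => hg⟩
    choose g hg using h2
    have h3 := hx g
    rw [act_mk, mk_eq] at h3
    obtain ⟨i, h4, h5⟩ := (h.and h3).exists
    exact hg i h4 h5
  have h2 : ∀ i, ∃ y : K i, x i ∈ Set.range (algebraMap (K i) (L i)) → algebraMap (K i) (L i) y = x i := by
    intro i
    by_cases hi : x i ∈ Set.range (algebraMap (K i) (L i))
    · obtain ⟨y, hy⟩ := hi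
      exact ⟨y, fun _ => hy⟩
    · exact ⟨0, fun h => absurd h hi⟩
  choose y hy using h2
  refine ⟨mk U K y, ?_⟩
  rw [algebraMap_mk, mk_eq]
  filter_upwards [h1] with i hi
  exact hy i hi

end algebra

end Pool.Agent.H87.MS
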